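import Mathlib

/-!
# [H38 HD Cls] solutions of `x² + m y² = n` in one class
-/

set_option autoImplicit false

namespace H38.HD

/-- one solution of the class: the quotient -/
theorem cls_quot {m n a b x y : ℤ} (hn : n ≠ 0) (hp : a ^ 2 + m * b ^ 2 = n) (hq : x ^ 2 + m * y ^ 2 = n)
    (hd : n ∣ 2 * (a * y - x * b)) : ∃ s t : ℤ, s ^ 2 + m * t ^ 2 = 4 ∧ n * s = 2 * (a * x + m * b * y) ∧
      n * t = 2 * (a * y - x * b) ∧ 2 * x = a * s - m * b * t ∧ 2 * y = b * s + a * t := by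
  obtain ⟨t, ht⟩ := hd
  have e1 : (2 * (a * x + m * b * y)) ^ 2 = n ^ 2 * (4 - m * t ^ 2) := by
    have h1 : (a * x + m * b * y) ^ 2 + m * (a * y - x * b) ^ 2 = n * n := by
      calc (a * x + m * b * y) ^ 2 + m * (a * y - x * b) ^ 2 =
          (a ^ 2 + m * b ^ 2) * (x ^ 2 + m * y ^ 2) := by ring
        _ = n * n := by rw [hp, hq]
    have h2 : (2 * (a * y - x * b)) ^ 2 = n ^ 2 * t ^ 2 := by rw [ht]; ring
    linear_combination 4 * h1 - m * h2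
  have e2 : n ^ 2 ∣ (2 * (a * x + m * b * y)) ^ 2 := ⟨_, e1⟩
  obtain ⟨s, hs⟩ := (Int.pow_dvd_pow_iff (by norm_num : (2 : ℕ) ≠ 0)).1 e2
  refine ⟨s, t, ?_, hs.symm, ht.symm, ?_, ?_⟩
  · have h3 : n ^ 2 * (s ^ 2 + m * t ^ 2) = n ^ 2 * 4 := by
      rw [hs] at e1
      linear_combination e1
    exact mul_left_cancel₀ (pow_ne_zero 2 hn) h3
  · have h3 : n * (2 * x) = n * (a * s - m * b * t) := by
      linear_combination (-2 * x) * hp + a * hs - m * b * ht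
    exact mul_left_cancel₀ hn h3
  · have h3 : n * (2 * y) = n * (b * s + a * t) := by
      linear_combination (-2 * y) * hp + b * hs + a * ht
    exact mul_left_cancel₀ hn h3

/-- the sizes -/
theorem cls_size {m n a b x y s t : ℤ} {X : ℕ} (hX : 1 ≤ X) (hn : n ≠ 0) (hmX : |m| ≤ X) (ha : |a| ≤ X)
    (hb : |b| ≤ X) (hx : |x| ≤ X) (hy : |y| ≤ X) (hs : n * s = 2 * (a * x + m * b * y))
    (ht : n * t = 2 * (a * y - x * b)) : |s| ≤ ((4 * X ^ 3 : ℕ) : ℤ) ∧ |t| ≤ ((4 * X ^ 3 : ℕ) : ℤ) := by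
  have hX' : (1 : ℤ) ≤ X := by exact_mod_cast hX
  have hn1 : 1 ≤ |n| := Int.one_le_abs hn
  have h2 : (X : ℤ) ^ 2 ≤ X ^ 3 := pow_le_pow_right₀ hX' (by norm_num)
  have b1 : |a * x| ≤ (X : ℤ) ^ 2 := by
    rw [abs_mul, pow_two]
    exact mul_le_mul ha hx (abs_nonneg _) (by positivity)
  have b2 : |m * b * y| ≤ (X : ℤ) ^ 3 := by
    rw [abs_mul, abs_mul]
    calc |m| * |b| * |y| ≤ (X : ℤ) * X * X :=
          mul_le_mul (mul_le_mul hmX hb (abs_nonneg _) (by positivity)) hy (abs_nonneg _) (by positivity)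
      _ = (X : ℤ) ^ 3 := by ring
  have b3 : |a * y| ≤ (X : ℤ) ^ 2 := by
    rw [abs_mul, pow_two]
    exact mul_le_mul ha hy (abs_nonneg _) (by positivity)
  have b4 : |x * b| ≤ (X : ℤ) ^ 2 := by
    rw [abs_mul, pow_two]
    exact mul_le_mul hx hb (abs_nonneg _) (by positivity)
  have c1 : |n * s| ≤ 4 * (X : ℤ) ^ 3 := by
    rw [hs, abs_mul]
    have := abs_add_le (a * x) (m * b * y)
    rw [abs_two]
    linarith
  have c2 : |n * t| ≤ 4 * (X : ℤ) ^ 3 := by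
    rw [ht, abs_mul]
    have := abs_sub (a * y) (x * b)
    rw [abs_two]
    linarith
  have d1 : |s| ≤ |n * s| := by
    rw [abs_mul]
    exact le_mul_of_one_le_left (abs_nonneg _) hn1
  have d2 : |t| ≤ |n * t| := by
    rw [abs_mul]
    exact le_mul_of_one_le_left (abs_nonneg _) hn1
  push_cast
  exact ⟨d1.trans c1, d2.trans c2⟩

/-- the solutions of one class, from the statement of `pell4` -/
theorem class_card_of (hpell : ∀ M : ℤ, M ≠ 0 → ∀ Y : ℕ, 1 ≤ Y → ∀ F : Finset (ℤ × ℤ),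
      (∀ p ∈ F, p.1 ^ 2 + M * p.2 ^ 2 = 4 ∧ |p.1| ≤ Y ∧ |p.2| ≤ Y) →
      (F.card : ℝ) ≤ 100 * (1 + Real.log Y))
    (m n : ℤ) (hm : m ≠ 0) (hn : n ≠ 0) (X : ℕ) (hX : 1 ≤ X) (hmX : |m| ≤ X)
    (F : Finset (ℤ × ℤ)) (hF : ∀ p ∈ F, p.1 ^ 2 + m * p.2 ^ 2 = n ∧ |p.1| ≤ X ∧ |p.2| ≤ X)
    (hcl : ∀ p ∈ F, ∀ q ∈ F, n ∣ 2 * (p.1 * q.2 - q.1 * p.2)) :
    (F.card : ℝ) ≤ 1000 * (1 + Real.log X) := by
  classical
  have hX1 : (1 : ℝ) ≤ X := by exact_mod_cast hX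
  have hlog : 0 ≤ Real.log X := Real.log_nonneg hX1
  rcases F.eq_empty_or_nonempty with rfl | ⟨p, hp⟩
  · rw [Finset.card_empty, Nat.cast_zero]
    positivity
  have hex : ∀ q : ℤ × ℤ, ∃ st : ℤ × ℤ, q ∈ F → st.1 ^ 2 + m * st.2 ^ 2 = 4 ∧
      n * st.1 = 2 * (p.1 * q.1 + m * p.2 * q.2) ∧ n * st.2 = 2 * (p.1 * q.2 - q.1 * p.2) ∧
      2 * q.1 = p.1 * st.1 - m * p.2 * st.2 ∧ 2 * q.2 = p.2 * st.1 + p.1 * st.2 := by
    intro q
    by_cases hq : q ∈ F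
    · obtain ⟨s, t, h⟩ := cls_quot hn (hF p hp).1 (hF q hq).1 (hcl p hp q hq)
      exact ⟨(s, t), fun _ => h⟩
    · exact ⟨(0, 0), fun h => absurd h hq⟩
  choose g hg using hex
  have hinj : Set.InjOn g (F : Set (ℤ × ℤ)) := by
    intro q hq q' hq' h
    obtain ⟨_, _, _, h1, h2⟩ := hg q hq
    obtain ⟨_, _, _, h1', h2'⟩ := hg q' hq'
    rw [h] at h1 h2
    refine Prod.ext ?_ ?_
    · linarith
    · linarith
  have hcard : (F.image g).card = F.card := Finset.card_image_of_injOn hinj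
  have h4X : 1 ≤ 4 * X ^ 3 := Nat.one_le_iff_ne_zero.2 (by positivity)
  have h1 := hpell m hm (4 * X ^ 3) h4X (F.image g) (by
    intro st hst
    obtain ⟨q, hq, rfl⟩ := Finset.mem_image.1 hst
    obtain ⟨e1, e2, e3, _, _⟩ := hg q hq
    have h2 := cls_size hX hn hmX (hF p hp).2.1 (hF p hp).2.2 (hF q hq).2.1 (hF q hq).2.2 e2 e3
    exact ⟨e1, h2.1, h2.2⟩)
  rw [hcard] at h1
  refine h1.trans ?_
  have h2 : Real.log ((4 * X ^ 3 : ℕ) : ℝ) = Real.log 4 + 3 * Real.log X := by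
    push_cast
    rw [Real.log_mul (by norm_num) (by positivity), Real.log_pow]
    norm_num
  have h3 : Real.log 4 ≤ 3 := by
    have := Real.log_le_sub_one_of_pos (by norm_num : (0 : ℝ) < 4)
    linarith
  rw [h2]
  linarith

end H38.HD
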