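import Pool.Agent.H38.HC.Rigid

/-!
Decomposition of `S_j² + E_j²` with respect to two pairs of complementary cells.
-/

set_option autoImplicit false

open Finset

namespace H38.HD

open H38.HC

theorem comp_comp (v : V) : comp (comp v) = v := by funext j; simp [comp]

/-- the twelve remaining cells -/
def rest2 (v1 v2 : V) (z : V → ℕ) : V → ℕ := rest v2 (rest v1 z)

def P2 (v1 v2 : V) (z : V → ℕ) (j : Fin 4) : ℕ :=
  ∏ u, (if (u j == v1 j) = true then rest2 v1 v2 z u else 1)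

def Q2 (v1 v2 : V) (z : V → ℕ) (j : Fin 4) : ℕ :=
  ∏ u, (if (u j != v1 j) = true then rest2 v1 v2 z u else 1)

theorem P2Q2 (v1 v2 : V) (z : V → ℕ) (j : Fin 4) :
    P2 v1 v2 z j * Q2 v1 v2 z j = ∏ u, rest2 v1 v2 z u := by
  rw [P2, Q2, ← prod_mul_distrib]
  refine prod_congr rfl fun u _ => ?_
  cases u j <;> cases v1 j <;> simp

theorem rest_ne {v1 u : V} (z : V → ℕ) (h : u ≠ v1) (h' : u ≠ comp v1) : rest v1 z u = z u := by
  simp [rest, h, h']

theorem ne_comp {v1 v2 : V} (h : v2 ≠ v1) (h' : v2 ≠ comp v1) :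
    comp v2 ≠ v1 ∧ comp v2 ≠ comp v1 := by
  constructor
  · intro h0
    apply h'
    rw [← h0, comp_comp]
  · intro h0
    apply h
    rw [← comp_comp v2, h0, comp_comp]

theorem P_eq {v1 v2 : V} (z : V → ℕ) (h : v2 ≠ v1) (h' : v2 ≠ comp v1) (j : Fin 4) :
    P v1 z j = (if v2 j = v1 j then z v2 else z (comp v2)) * P2 v1 v2 z j := by
  obtain ⟨g, g'⟩ := ne_comp h h'
  rw [P, prod_if v2 (rest v1 z) (fun u => u j == v1 j), P2]
  simp only [rest_ne z h h', rest_ne z g g']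
  have hc : comp v2 j = !v2 j := rfl
  rw [hc]
  cases v2 j <;> cases v1 j <;> simp [rest2]

theorem Q_eq {v1 v2 : V} (z : V → ℕ) (h : v2 ≠ v1) (h' : v2 ≠ comp v1) (j : Fin 4) :
    Q v1 z j = (if v2 j = v1 j then z (comp v2) else z v2) * Q2 v1 v2 z j := by
  obtain ⟨g, g'⟩ := ne_comp h h'
  rw [Q, prod_if v2 (rest v1 z) (fun u => u j != v1 j), Q2]
  simp only [rest_ne z h h', rest_ne z g g']
  have hc : comp v2 j = !v2 j := rfl
  rw [hc]
  cases v2 j <;> cases v1 j <;> simp [rest2]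

theorem SE_sq2 {v1 v2 : V} (z : V → ℕ) (h : v2 ≠ v1) (h' : v2 ≠ comp v1) (j : Fin 4) :
    S z j ^ 2 + E z j ^ 2 = if v2 j = v1 j then
      z v1 ^ 2 * z v2 ^ 2 * P2 v1 v2 z j ^ 2 + z (comp v1) ^ 2 * z (comp v2) ^ 2 * Q2 v1 v2 z j ^ 2
      else
      z v1 ^ 2 * z (comp v2) ^ 2 * P2 v1 v2 z j ^ 2 +
        z (comp v1) ^ 2 * z v2 ^ 2 * Q2 v1 v2 z j ^ 2 := by
  rw [SE_sq v1 z j, P_eq z h h' j, Q_eq z h h' j]
  split_ifs <;> ring

end H38.HD
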