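import Pool.Agent.H92.DivBound

/-!
# Solutions of `u² (A w² + B z²) + v² (C w² + D z²) = 0`
-/

set_option autoImplicit false

namespace H38.HD

/-- one value of `k` -/
private theorem fiber (K1 e : ℝ)
    (hr : ∀ X : ℕ, 1 ≤ X → ∀ m n : ℤ, m ≠ 0 → n ≠ 0 →
      |m| ≤ X → |n| ≤ X → ∀ F : Finset (ℤ × ℤ),
      (∀ p ∈ F, p.1 ^ 2 + m * p.2 ^ 2 = n ∧ |p.1| ≤ X ∧ |p.2| ≤ X) → (F.card : ℝ) ≤ K1 * (X : ℝ) ^ e)
    (X : ℕ) (hX : 1 ≤ X) (A B k z : ℤ) (hA : |A| ≤ X) (hB : |B| ≤ X) (hA0 : A ≠ 0) (hB0 : B ≠ 0)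
    (hk0 : k ≠ 0) (hk : |k| ≤ 2 * (X : ℤ) ^ 2) (hz : 0 < z) (hzX : z ≤ X) (G : Finset ℕ) (v : ℕ → ℤ)
    (hG : ∀ w ∈ G, w ≤ X ∧ 0 < v w ∧ v w ≤ X ∧
      A * (w : ℤ) ^ 2 + B * z ^ 2 = -(k * v w ^ 2)) :
    (G.card : ℝ) ≤ K1 * ((2 * X ^ 4 : ℕ) : ℝ) ^ e := by
  classical
  have hx : (1 : ℤ) ≤ X := by exact_mod_cast hX
  have hx0 : (0 : ℤ) ≤ X := by linarith
  have hx34 : (X : ℤ) ^ 3 ≤ (X : ℤ) ^ 4 := pow_le_pow_right₀ hx (by norm_num)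
  have hx24 : (X : ℤ) ^ 2 ≤ (X : ℤ) ^ 4 := pow_le_pow_right₀ hx (by norm_num)
  have hx14 : (X : ℤ) ^ 1 ≤ (X : ℤ) ^ 4 := pow_le_pow_right₀ hx (by norm_num)
  have hx44 : (0 : ℤ) ≤ (X : ℤ) ^ 4 := by positivity
  rw [pow_one] at hx14
  have hinj : Set.InjOn (fun w : ℕ => ((A * (w : ℤ), v w) : ℤ × ℤ)) (G : Set ℕ) := by
    intro w _ w' _ h
    have h1 : A * (w : ℤ) = A * (w' : ℤ) := congrArg Prod.fst h
    have h2 := mul_left_cancel₀ hA0 h1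
    exact_mod_cast h2
  rw [← Finset.card_image_of_injOn hinj]
  refine hr (2 * X ^ 4) ?_ (A * k) (-(A * B * z ^ 2)) (mul_ne_zero hA0 hk0)
    (neg_ne_zero.2 (mul_ne_zero (mul_ne_zero hA0 hB0) (pow_ne_zero _ hz.ne'))) ?_ ?_ _ ?_
  · have := Nat.one_le_pow 4 X hX
    omega
  · push_cast
    rw [abs_mul]
    calc |A| * |k| ≤ (X : ℤ) * (2 * (X : ℤ) ^ 2) := mul_le_mul hA hk (abs_nonneg _) hx0
      _ = 2 * (X : ℤ) ^ 3 := by ring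
      _ ≤ 2 * (X : ℤ) ^ 4 := by linarith
  · push_cast
    rw [abs_neg, abs_mul, abs_mul, abs_of_nonneg (sq_nonneg z)]
    have hz2 : z ^ 2 ≤ (X : ℤ) ^ 2 := pow_le_pow_left₀ hz.le hzX 2
    have hAB : |A| * |B| ≤ (X : ℤ) * X := mul_le_mul hA hB (abs_nonneg _) hx0
    calc |A| * |B| * z ^ 2 ≤ (X : ℤ) * X * (X : ℤ) ^ 2 :=
          mul_le_mul hAB hz2 (sq_nonneg z) (by positivity)
      _ = (X : ℤ) ^ 4 := by ring
      _ ≤ 2 * (X : ℤ) ^ 4 := by linarith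
  · intro p hp
    obtain ⟨w, hw, rfl⟩ := Finset.mem_image.1 hp
    obtain ⟨h1, h2, h3, h4⟩ := hG w hw
    refine ⟨?_, ?_, ?_⟩
    · show (A * (w : ℤ)) ^ 2 + A * k * v w ^ 2 = -(A * B * z ^ 2)
      linear_combination A * h4
    · show |A * (w : ℤ)| ≤ _
      push_cast
      have hw1 : (w : ℤ) ≤ X := by exact_mod_cast h1
      have hw0 : (0 : ℤ) ≤ w := by positivity
      rw [abs_mul, abs_of_nonneg hw0]
      calc |A| * (w : ℤ) ≤ (X : ℤ) * X := mul_le_mul hA hw1 hw0 hx0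
        _ = (X : ℤ) ^ 2 := by ring
        _ ≤ 2 * (X : ℤ) ^ 4 := by linarith
    · show |v w| ≤ _
      push_cast
      rw [abs_of_pos h2]
      linarith

/-- the shape of the solutions -/
private theorem shape {r s u v : ℤ} (hu : 0 < u) (hc : IsCoprime u v)
    (h : u ^ 2 * r + v ^ 2 * s = 0) : ∃ k : ℤ, r = -(k * v ^ 2) ∧ s = k * u ^ 2 := by
  have h1 : u ^ 2 ∣ v ^ 2 * s := ⟨-r, by linear_combination h⟩
  have h2 : u ^ 2 ∣ s := (hc.pow (m := 2) (n := 2)).dvd_of_dvd_mul_left h1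
  obtain ⟨k, hk⟩ := h2
  refine ⟨k, ?_, by rw [hk]; ring⟩
  have hu2 : u ^ 2 ≠ 0 := pow_ne_zero _ hu.ne'
  apply mul_left_cancel₀ hu2
  rw [hk] at h
  linear_combination h

theorem lemK (hrep : ∀ ε : ℝ, 0 < ε → ∃ K : ℝ, 0 < K ∧ ∀ X : ℕ, 1 ≤ X → ∀ m n : ℤ, m ≠ 0 → n ≠ 0 →
      |m| ≤ X → |n| ≤ X → ∀ F : Finset (ℤ × ℤ),
      (∀ p ∈ F, p.1 ^ 2 + m * p.2 ^ 2 = n ∧ |p.1| ≤ X ∧ |p.2| ≤ X) → (F.card : ℝ) ≤ K * (X : ℝ) ^ ε)
    (ε : ℝ) (hε : 0 < ε) : ∃ K : ℝ, 0 < K ∧ ∀ X : ℕ, 1 ≤ X → ∀ A B C D z : ℤ,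
    |A| ≤ X → |B| ≤ X → |C| ≤ X → |D| ≤ X → 0 < z → z ≤ X → A * D - B * C ≠ 0 →
    ¬ (A = 0 ∧ D = 0) → ¬ (B = 0 ∧ C = 0) → ∀ F : Finset ℕ,
    (∀ w ∈ F, 0 < w ∧ w ≤ X ∧ IsCoprime (w : ℤ) z ∧ ∃ u v : ℤ, 0 < u ∧ u ≤ X ∧ 0 < v ∧ v ≤ X ∧
      IsCoprime u v ∧ u ^ 2 * (A * w ^ 2 + B * z ^ 2) + v ^ 2 * (C * w ^ 2 + D * z ^ 2) = 0) →
    (F.card : ℝ) ≤ K * (X : ℝ) ^ ε := by
  classical
  obtain ⟨K1, hK1, hr⟩ := hrep (ε / 6) (by positivity)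
  obtain ⟨K2, hK2, hd⟩ := Pool.Agent.H5.W.divisor_bound (ε / 6) (by positivity)
  refine ⟨2 * (K2 * 2 ^ (ε / 6)) * (K1 * 2 ^ (ε / 6)), by positivity, ?_⟩
  intro X hX A B C D z hA hB hC hD hz hzX hΔ n1 n2 F hF
  obtain ⟨Δ, hΔd⟩ : ∃ Δ : ℤ, Δ = A * D - B * C := ⟨_, rfl⟩
  rw [← hΔd] at hΔ
  have hx : (1 : ℤ) ≤ X := by exact_mod_cast hX
  have hx0 : (0 : ℤ) ≤ X := by linarith
  have hΔX : |Δ| ≤ 2 * (X : ℤ) ^ 2 := by
    have h1 : |A * D| ≤ (X : ℤ) * X := by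
      rw [abs_mul]; exact mul_le_mul hA hD (abs_nonneg _) hx0
    have h2 : |B * C| ≤ (X : ℤ) * X := by
      rw [abs_mul]; exact mul_le_mul hB hC (abs_nonneg _) hx0
    rw [abs_le] at h1 h2 ⊢
    rw [hΔd]
    constructor
    · nlinarith
    · nlinarith
  -- the possible values of `k`
  obtain ⟨S, hS⟩ : ∃ S : Finset ℤ, S = Δ.natAbs.divisors.image (fun d : ℕ => (d : ℤ)) ∪
      Δ.natAbs.divisors.image (fun d : ℕ => -(d : ℤ)) := ⟨_, rfl⟩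
  have hSmem : ∀ k : ℤ, k ∣ Δ → k ∈ S := by
    intro k hk
    have h1 : k.natAbs ∈ Δ.natAbs.divisors :=
      Nat.mem_divisors.2 ⟨Int.natAbs_dvd_natAbs.2 hk, Int.natAbs_ne_zero.2 hΔ⟩
    rw [hS, Finset.mem_union, Finset.mem_image, Finset.mem_image]
    rcases Int.natAbs_eq k with h | h
    · exact Or.inl ⟨k.natAbs, h1, h.symm⟩
    · exact Or.inr ⟨k.natAbs, h1, h.symm⟩
  have hScard : (S.card : ℝ) ≤ 2 * (Δ.natAbs.divisors.card : ℝ) := by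
    have h1 : S.card ≤ Δ.natAbs.divisors.card + Δ.natAbs.divisors.card := by
      rw [hS]
      exact (Finset.card_union_le _ _).trans (Nat.add_le_add Finset.card_image_le
        Finset.card_image_le)
    have h2 : (S.card : ℝ) ≤ (Δ.natAbs.divisors.card : ℝ) + (Δ.natAbs.divisors.card : ℝ) := by
      exact_mod_cast h1
    linarith
  have key : ∀ w ∈ F, ∃ k : ℤ, k ∣ Δ ∧ k ≠ 0 ∧ ∃ u v : ℤ, 0 < u ∧ u ≤ X ∧ 0 < v ∧ v ≤ X ∧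
      A * (w : ℤ) ^ 2 + B * z ^ 2 = -(k * v ^ 2) ∧ C * (w : ℤ) ^ 2 + D * z ^ 2 = k * u ^ 2 := by
    intro w hw
    obtain ⟨hw0, hwX, hcop, u, v, hu, huX, hv, hvX, huv, heq⟩ := hF w hw
    obtain ⟨k, hk1, hk2⟩ := shape hu huv heq
    have e1 : Δ * z ^ 2 = k * (A * u ^ 2 + C * v ^ 2) := by
      rw [hΔd]
      linear_combination A * hk2 - C * hk1
    have e2 : Δ * (w : ℤ) ^ 2 = k * (-(D * v ^ 2) - B * u ^ 2) := by
      rw [hΔd]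
      linear_combination D * hk1 - B * hk2
    refine ⟨k, ?_, ?_, u, v, hu, huX, hv, hvX, hk1, hk2⟩
    · obtain ⟨a, b, hab⟩ := hcop.pow (m := 2) (n := 2)
      refine ⟨a * (-(D * v ^ 2) - B * u ^ 2) + b * (A * u ^ 2 + C * v ^ 2), ?_⟩
      linear_combination (-Δ) * hab + a * e2 + b * e1
    · rintro rfl
      rw [zero_mul] at e1
      rcases mul_eq_zero.1 e1 with h | h
      · exact hΔ h
      · exact hz.ne' (pow_eq_zero_iff (by norm_num) |>.1 h)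
  choose! κ hκd hκ0 hκ using key
  have hmaps : ∀ w ∈ F, κ w ∈ S := fun w hw => hSmem _ (hκd w hw)
  have hcard := Finset.card_eq_sum_card_fiberwise hmaps
  have hfib : ∀ k ∈ S, (((F.filter fun w => κ w = k).card : ℕ) : ℝ) ≤
      K1 * ((2 * X ^ 4 : ℕ) : ℝ) ^ (ε / 6) := by
    intro k _
    rcases Finset.eq_empty_or_nonempty (F.filter fun w => κ w = k) with h0 | ⟨w0, hw0⟩
    · rw [h0, Finset.card_empty, Nat.cast_zero]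
      positivity
    · have hw0' := Finset.mem_filter.1 hw0
      have hkd : k ∣ Δ := hw0'.2 ▸ hκd w0 hw0'.1
      have hk0 : k ≠ 0 := hw0'.2 ▸ hκ0 w0 hw0'.1
      have hkX : |k| ≤ 2 * (X : ℤ) ^ 2 := by
        refine le_trans ?_ hΔX
        exact Int.le_of_dvd (abs_pos.2 hΔ) ((abs_dvd_abs k Δ).2 hkd)
      have hall : ∀ w ∈ F.filter (fun w => κ w = k), ∃ u v : ℤ, w ≤ X ∧ 0 < u ∧ u ≤ X ∧ 0 < v ∧
          v ≤ X ∧ A * (w : ℤ) ^ 2 + B * z ^ 2 = -(k * v ^ 2) ∧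
          C * (w : ℤ) ^ 2 + D * z ^ 2 = k * u ^ 2 := by
        intro w hw
        obtain ⟨hw1, hw2⟩ := Finset.mem_filter.1 hw
        obtain ⟨u, v, c1, c2, c3, c4, c5, c6⟩ := hκ w hw1
        rw [hw2] at c5 c6
        exact ⟨u, v, (hF w hw1).2.1, c1, c2, c3, c4, c5, c6⟩
      choose! u v huv using hall
      by_cases hAB : A ≠ 0 ∧ B ≠ 0
      · refine fiber K1 (ε / 6) hr X hX A B k z hA hB hAB.1 hAB.2 hk0 hkX hz hzX _ v ?_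
        intro w hw
        obtain ⟨c0, c1, c2, c3, c4, c5, c6⟩ := huv w hw
        exact ⟨c0, c3, c4, c5⟩
      · have hCD : C ≠ 0 ∧ D ≠ 0 := by
          by_contra hcon
          rw [not_and_or, not_not, not_not] at hAB hcon
          apply hΔ
          rw [hΔd]
          rcases hAB with h | h <;> rcases hcon with h' | h'
          · rw [h, h']; ring
          · exact absurd ⟨h, h'⟩ n1
          · exact absurd ⟨h, h'⟩ n2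
          · rw [h, h']; ring
        refine fiber K1 (ε / 6) hr X hX C D (-k) z hC hD hCD.1 hCD.2 (neg_ne_zero.2 hk0)
          (by rwa [abs_neg]) hz hzX _ u ?_
        intro w hw
        obtain ⟨c0, c1, c2, c3, c4, c5, c6⟩ := huv w hw
        exact ⟨c0, c1, c2, by rw [c6]; ring⟩
  have hxr : (1 : ℝ) ≤ X := by exact_mod_cast hX
  have hxr0 : (0 : ℝ) ≤ X := by linarith
  have hdiv : (Δ.natAbs.divisors.card : ℝ) ≤ K2 * 2 ^ (ε / 6) * (X : ℝ) ^ (ε / 3) := by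
    have h1 := hd Δ.natAbs (Nat.one_le_iff_ne_zero.2 (Int.natAbs_ne_zero.2 hΔ))
    refine h1.trans ?_
    have h2 : (Δ.natAbs : ℝ) ≤ 2 * (X : ℝ) ^ 2 := by
      have h3 : ((Δ.natAbs : ℕ) : ℤ) ≤ 2 * (X : ℤ) ^ 2 := by
        rw [Int.natCast_natAbs]; exact hΔX
      exact_mod_cast h3
    have h4 : (Δ.natAbs : ℝ) ^ (ε / 6) ≤ (2 * (X : ℝ) ^ 2) ^ (ε / 6) :=
      Real.rpow_le_rpow (Nat.cast_nonneg _) h2 (by positivity)
    have h5 : (2 * (X : ℝ) ^ 2) ^ (ε / 6) = 2 ^ (ε / 6) * (X : ℝ) ^ (ε / 3) := by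
      rw [Real.mul_rpow (by norm_num) (by positivity), ← Real.rpow_natCast (X : ℝ) 2,
        ← Real.rpow_mul hxr0]
      congr 2
      push_cast
      ring
    rw [h5] at h4
    calc K2 * (Δ.natAbs : ℝ) ^ (ε / 6) ≤ K2 * (2 ^ (ε / 6) * (X : ℝ) ^ (ε / 3)) :=
          mul_le_mul_of_nonneg_left h4 hK2.le
      _ = _ := by ring
  have h4X : ((2 * X ^ 4 : ℕ) : ℝ) ^ (ε / 6) = 2 ^ (ε / 6) * (X : ℝ) ^ (2 * ε / 3) := by
    push_cast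
    rw [Real.mul_rpow (by norm_num) (by positivity), ← Real.rpow_natCast (X : ℝ) 4,
      ← Real.rpow_mul hxr0]
    congr 2
    push_cast
    ring
  have hXe : (X : ℝ) ^ (ε / 3) * (X : ℝ) ^ (2 * ε / 3) = (X : ℝ) ^ ε := by
    rw [← Real.rpow_add (by linarith)]
    congr 1
    ring
  rw [h4X] at hfib
  rw [hcard]
  push_cast
  calc ∑ k ∈ S, (((F.filter fun w => κ w = k).card : ℕ) : ℝ)
      ≤ ∑ _k ∈ S, K1 * (2 ^ (ε / 6) * (X : ℝ) ^ (2 * ε / 3)) := Finset.sum_le_sum hfib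
    _ = S.card * (K1 * (2 ^ (ε / 6) * (X : ℝ) ^ (2 * ε / 3))) := by
        rw [Finset.sum_const, nsmul_eq_mul]
    _ ≤ (2 * (K2 * 2 ^ (ε / 6) * (X : ℝ) ^ (ε / 3))) *
          (K1 * (2 ^ (ε / 6) * (X : ℝ) ^ (2 * ε / 3))) := by
        refine mul_le_mul_of_nonneg_right ?_ (by positivity)
        exact hScard.trans (mul_le_mul_of_nonneg_left hdiv (by norm_num))
    _ = 2 * (K2 * 2 ^ (ε / 6)) * (K1 * 2 ^ (ε / 6)) * ((X : ℝ) ^ (ε / 3) * (X : ℝ) ^ (2 * ε / 3)) := by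
        ring
    _ = _ := by rw [hXe]

end H38.HD
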