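import Mathlib

/-!
# (T3) nondegeneracy of the relation
-/

set_option autoImplicit false

namespace H38.HD

/-- Lemma P -/
private theorem nd_pairs (a b : Fin 4 → ℤ) (K : ℤ) (ha : ∀ j, 0 < a j) (hb : ∀ j, 0 < b j)
    (hK : ∀ j, a j * b j = K) (h1 : a 0 + a 3 = a 1 + a 2) (h2 : b 0 + b 3 = b 1 + b 2) :
    (a 0 = a 1 ∧ b 0 = b 1) ∨ (a 0 = a 2 ∧ b 0 = b 2) := by
  have hKp : 0 < K := by rw [← hK 0]; exact mul_pos (ha 0) (hb 0)
  have a0 := ha 0
  have a1 := ha 1
  have a2 := ha 2
  have a3 := ha 3
  have k0 := hK 0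
  have k1 := hK 1
  have k2 := hK 2
  have k3 := hK 3
  -- multiply by the product of all `a`
  have e1 : K * ((a 0 + a 3) * (a 1 * a 2 - a 0 * a 3)) = 0 := by
    have e : a 0 * a 1 * a 2 * a 3 * (b 0 + b 3) = a 0 * a 1 * a 2 * a 3 * (b 1 + b 2) := by rw [h2]
    have l1 : a 0 * a 1 * a 2 * a 3 * (b 0 + b 3) =
        (a 0 * b 0) * (a 1 * a 2 * a 3) + (a 3 * b 3) * (a 0 * a 1 * a 2) := by ring
    have l2 : a 0 * a 1 * a 2 * a 3 * (b 1 + b 2) =
        (a 1 * b 1) * (a 0 * a 2 * a 3) + (a 2 * b 2) * (a 0 * a 1 * a 3) := by ring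
    rw [l1, l2, k0, k1, k2, k3] at e
    have l3 : K * ((a 0 + a 3) * (a 1 * a 2 - a 0 * a 3)) =
        (K * (a 1 * a 2 * a 3) + K * (a 0 * a 1 * a 2)) -
        K * (a 0 * a 3) * (a 0 + a 3) := by ring
    rw [l3, e, h1]
    ring
  have e2 : a 1 * a 2 - a 0 * a 3 = 0 := by
    rcases mul_eq_zero.mp e1 with h | h
    · exact absurd h hKp.ne'
    · rcases mul_eq_zero.mp h with h | h
      · exact absurd h (by positivity)
      · exact h
  have e3 : (a 0 - a 1) * (a 0 - a 2) = 0 := by
    have : (a 0 - a 1) * (a 0 - a 2) = a 0 * (a 0 + a 3 - (a 1 + a 2)) + (a 1 * a 2 - a 0 * a 3) := by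
      ring
    rw [this, h1, e2]
    ring
  rcases mul_eq_zero.mp e3 with h | h
  · left
    have h' : a 0 = a 1 := by linarith
    refine ⟨h', ?_⟩
    have : a 0 * b 0 = a 0 * b 1 := by rw [k0, ← k1, h']
    exact mul_left_cancel₀ a0.ne' this
  · right
    have h' : a 0 = a 2 := by linarith
    refine ⟨h', ?_⟩
    have : a 0 * b 0 = a 0 * b 2 := by rw [k0, ← k2, h']
    exact mul_left_cancel₀ a0.ne' this

/-- three terms cannot vanish together -/
private theorem nd_three {x x1 x2 y y1 y2 R : ℤ} (h1 : 0 < x1) (h2 : 0 < x2) (k1 : 0 < y1)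
    (k2 : 0 < y2) (e : x * y = R) (e1 : x1 * y1 = R) (e2 : x2 * y2 = R) (hx : x = x1 + x2)
    (hy : y = y1 + y2) : False := by
  have p1 := mul_pos h1 k1
  have p2 := mul_pos h1 k2
  have p3 := mul_pos h2 k1
  rw [hx, hy] at e
  nlinarith

/-- Lemma Q: the partial sums over a proper nonempty set of indices -/
private theorem nd_part (τ : Fin 4 → Bool) (h1 : ∃ j, τ j = true) (h2 : ∃ j, τ j = false)
    (α β : Fin 4 → ℤ) (R : ℤ) (hα : ∀ j, 0 < α j) (hβ : ∀ j, 0 < β j) (hR : ∀ j, α j * β j = R)
    (T : Fin 4 → ℤ)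
    (hT : ∀ i j, τ i = true → τ j = true → α i = α j → β i = β j → T i = T j)
    (hrel : T 0 + T 3 = T 1 + T 2) (n1 : T 0 ≠ T 1) (n2 : T 0 ≠ T 2)
    (hA : (if τ 0 = true then α 0 else 0) - (if τ 1 = true then α 1 else 0) -
      (if τ 2 = true then α 2 else 0) + (if τ 3 = true then α 3 else 0) = 0)
    (hD : (if τ 0 = true then β 0 else 0) - (if τ 1 = true then β 1 else 0) -
      (if τ 2 = true then β 2 else 0) + (if τ 3 = true then β 3 else 0) = 0) : False := by
  have a0 := hα 0
  have a1 := hα 1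
  have a2 := hα 2
  have a3 := hα 3
  have b0 := hβ 0
  have b1 := hβ 1
  have b2 := hβ 2
  have b3 := hβ 3
  cases t0 : τ 0 <;> cases t1 : τ 1 <;> cases t2 : τ 2 <;> cases t3 : τ 3 <;>
    simp only [t0, t1, t2, t3, if_true, Bool.false_eq_true, if_false] at hA hD
  · -- none
    obtain ⟨j, hj⟩ := h1
    fin_cases j <;> simp_all
  · linarith
  · linarith
  · -- 2, 3
    have := hT 2 3 t2 t3 (by linarith) (by linarith)
    exact n1 (by linarith)
  · linarith
  · -- 1, 3
    have := hT 1 3 t1 t3 (by linarith) (by linarith)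
    exact n2 (by linarith)
  · linarith
  · -- 1, 2, 3
    exact nd_three a1 a2 b1 b2 (hR 3) (hR 1) (hR 2) (by linarith) (by linarith)
  · linarith
  · linarith
  · -- 0, 2
    exact n2 (hT 0 2 t0 t2 (by linarith) (by linarith))
  · -- 0, 2, 3
    exact nd_three a0 a3 b0 b3 (hR 2) (hR 0) (hR 3) (by linarith) (by linarith)
  · -- 0, 1
    exact n1 (hT 0 1 t0 t1 (by linarith) (by linarith))
  · -- 0, 1, 3
    exact nd_three a0 a3 b0 b3 (hR 1) (hR 0) (hR 3) (by linarith) (by linarith)
  · -- 0, 1, 2
    exact nd_three a1 a2 b1 b2 (hR 0) (hR 1) (hR 2) (by linarith) (by linarith)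
  · -- all
    obtain ⟨j, hj⟩ := h2
    fin_cases j <;> simp_all

theorem nondeg (σ : Fin 4 → Bool) (h1 : ∃ j, σ j = true) (h2 : ∃ j, σ j = false)
    (α β : Fin 4 → ℤ) (R : ℤ) (hα : ∀ j, 0 < α j) (hβ : ∀ j, 0 < β j) (hR : ∀ j, α j * β j = R)
    (U W Y Z : ℤ) (hU : 0 < U) (hW : 0 < W) (hY : 0 < Y) (hZ : 0 < Z) (T : Fin 4 → ℤ)
    (hT : ∀ j, T j = if σ j = true then U * W * α j + Y * Z * β j else U * Z * α j + Y * W * β j)
    (hrel : T 0 + T 3 = T 1 + T 2) (n1 : T 0 ≠ T 1) (n2 : T 0 ≠ T 2) (A B C D : ℤ)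
    (hA : A = ∑ j, if σ j = true then (![1, -1, -1, 1] : Fin 4 → ℤ) j * α j else 0)
    (hB : B = ∑ j, if σ j = true then 0 else (![1, -1, -1, 1] : Fin 4 → ℤ) j * α j)
    (hC : C = ∑ j, if σ j = true then 0 else (![1, -1, -1, 1] : Fin 4 → ℤ) j * β j)
    (hD : D = ∑ j, if σ j = true then (![1, -1, -1, 1] : Fin 4 → ℤ) j * β j else 0) :
    U * (A * W + B * Z) + Y * (C * W + D * Z) = 0 ∧ A * D - B * C ≠ 0 ∧ ¬ (A = 0 ∧ D = 0) ∧
      ¬ (B = 0 ∧ C = 0) := by
  -- the sums written out
  have gen1 : ∀ x : Fin 4 → ℤ, (∑ j, if σ j = true then (![1, -1, -1, 1] : Fin 4 → ℤ) j * x j else 0) =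
      (if σ 0 = true then x 0 else 0) - (if σ 1 = true then x 1 else 0) -
      (if σ 2 = true then x 2 else 0) + (if σ 3 = true then x 3 else 0) := by
    intro x
    rw [Fin.sum_univ_four]
    cases σ 0 <;> cases σ 1 <;> cases σ 2 <;> cases σ 3 <;> simp <;> ring
  have gen2 : ∀ x : Fin 4 → ℤ, (∑ j, if σ j = true then 0 else (![1, -1, -1, 1] : Fin 4 → ℤ) j * x j) =
      (if (!σ 0) = true then x 0 else 0) - (if (!σ 1) = true then x 1 else 0) -
      (if (!σ 2) = true then x 2 else 0) + (if (!σ 3) = true then x 3 else 0) := by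
    intro x
    rw [Fin.sum_univ_four]
    cases σ 0 <;> cases σ 1 <;> cases σ 2 <;> cases σ 3 <;> simp <;> ring
  -- mixed sums
  have mix : ∀ x y : Fin 4 → ℤ, ∀ p q : ℤ,
      (∑ j, if σ j = true then (![1, -1, -1, 1] : Fin 4 → ℤ) j * x j else 0) * p +
      (∑ j, if σ j = true then 0 else (![1, -1, -1, 1] : Fin 4 → ℤ) j * y j) * q =
      (if σ 0 = true then p * x 0 else q * y 0) - (if σ 1 = true then p * x 1 else q * y 1) -
      (if σ 2 = true then p * x 2 else q * y 2) + (if σ 3 = true then p * x 3 else q * y 3) := by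
    intro x y p q
    rw [gen1, gen2]
    cases σ 0 <;> cases σ 1 <;> cases σ 2 <;> cases σ 3 <;> simp <;> ring
  have hr : A * W + B * Z =
      (if σ 0 = true then W * α 0 else Z * α 0) - (if σ 1 = true then W * α 1 else Z * α 1) -
      (if σ 2 = true then W * α 2 else Z * α 2) + (if σ 3 = true then W * α 3 else Z * α 3) := by
    rw [hA, hB]; exact mix α α W Z
  have hs : C * W + D * Z =
      (if σ 0 = true then Z * β 0 else W * β 0) - (if σ 1 = true then Z * β 1 else W * β 1) -
      (if σ 2 = true then Z * β 2 else W * β 2) + (if σ 3 = true then Z * β 3 else W * β 3) := by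
    rw [add_comm, hC, hD]; exact mix β β Z W
  have hU' : A * U + C * Y =
      (if σ 0 = true then U * α 0 else Y * β 0) - (if σ 1 = true then U * α 1 else Y * β 1) -
      (if σ 2 = true then U * α 2 else Y * β 2) + (if σ 3 = true then U * α 3 else Y * β 3) := by
    rw [hA, hC]; exact mix α β U Y
  have hY' : D * Y + B * U =
      (if σ 0 = true then Y * β 0 else U * α 0) - (if σ 1 = true then Y * β 1 else U * α 1) -
      (if σ 2 = true then Y * β 2 else U * α 2) + (if σ 3 = true then Y * β 3 else U * α 3) := by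
    rw [hD, hB]; exact mix β α Y U
  have hrel' : U * (A * W + B * Z) + Y * (C * W + D * Z) = 0 := by
    have e : ∀ j, T j = U * (if σ j = true then W * α j else Z * α j) +
        Y * (if σ j = true then Z * β j else W * β j) := by
      intro j
      rw [hT j]
      split_ifs <;> ring
    have e0 := e 0
    have e1 := e 1
    have e2 := e 2
    have e3 := e 3
    rw [hr, hs]
    linarith
  have hTeq : ∀ i j, σ i = σ j → α i = α j → β i = β j → T i = T j := by
    intro i j h3 h4 h5
    rw [hT i, hT j, h3, h4, h5]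
  refine ⟨hrel', ?_, ?_, ?_⟩
  · intro hdet
    by_cases hr0 : A * W + B * Z = 0
    · have hs0 : C * W + D * Z = 0 := by
        rw [hr0, mul_zero, zero_add] at hrel'
        rcases mul_eq_zero.mp hrel' with h | h
        · exact absurd h hY.ne'
        · exact h
      have hP := nd_pairs (fun j => if σ j = true then W * α j else Z * α j)
        (fun j => if σ j = true then Z * β j else W * β j) (W * Z * R)
        (fun j => by
          split_ifs
          · exact mul_pos hW (hα j)
          · exact mul_pos hZ (hα j))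
        (fun j => by
          split_ifs
          · exact mul_pos hZ (hβ j)
          · exact mul_pos hW (hβ j))
        (fun j => by
          rw [← hR j]
          split_ifs <;> ring)
        (by linarith) (by linarith)
      have e : ∀ j, T j = U * (if σ j = true then W * α j else Z * α j) +
          Y * (if σ j = true then Z * β j else W * β j) := by
        intro j
        rw [hT j]
        split_ifs <;> ring
      rcases hP with ⟨p1, p2⟩ | ⟨p1, p2⟩
      · exact n1 (by rw [e 0, e 1, p1, p2])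
      · exact n2 (by rw [e 0, e 2, p1, p2])
    · have hs0 : C * W + D * Z ≠ 0 := by
        intro h
        rw [h, mul_zero, add_zero] at hrel'
        rcases mul_eq_zero.mp hrel' with h | h
        · exact hU.ne' h
        · exact hr0 h
      have q1 : A * U + C * Y = 0 := by
        have : (C * W + D * Z) * (A * U + C * Y) = 0 := by
          have l : (C * W + D * Z) * (A * U + C * Y) = U * Z * (A * D - B * C) +
              C * (U * (A * W + B * Z) + Y * (C * W + D * Z)) := by ring
          rw [l, hdet, hrel']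
          ring
        rcases mul_eq_zero.mp this with h | h
        · exact absurd h hs0
        · exact h
      have q2 : D * Y + B * U = 0 := by
        have : (A * W + B * Z) * (D * Y + B * U) = 0 := by
          have l : (A * W + B * Z) * (D * Y + B * U) = Y * W * (A * D - B * C) +
              B * (U * (A * W + B * Z) + Y * (C * W + D * Z)) := by ring
          rw [l, hdet, hrel']
          ring
        rcases mul_eq_zero.mp this with h | h
        · exact absurd h hr0
        · exact h
      have hP := nd_pairs (fun j => if σ j = true then U * α j else Y * β j)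
        (fun j => if σ j = true then Y * β j else U * α j) (U * Y * R)
        (fun j => by
          split_ifs
          · exact mul_pos hU (hα j)
          · exact mul_pos hY (hβ j))
        (fun j => by
          split_ifs
          · exact mul_pos hY (hβ j)
          · exact mul_pos hU (hα j))
        (fun j => by
          rw [← hR j]
          split_ifs <;> ring)
        (by linarith) (by linarith)
      have e : ∀ j, T j = W * (if σ j = true then U * α j else Y * β j) +
          Z * (if σ j = true then Y * β j else U * α j) := by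
        intro j
        rw [hT j]
        split_ifs <;> ring
      rcases hP with ⟨p1, p2⟩ | ⟨p1, p2⟩
      · exact n1 (by rw [e 0, e 1, p1, p2])
      · exact n2 (by rw [e 0, e 2, p1, p2])
  · rintro ⟨hA0, hD0⟩
    rw [hA, gen1] at hA0
    rw [hD, gen1] at hD0
    exact nd_part σ h1 h2 α β R hα hβ hR T
      (fun i j k1 k2 => hTeq i j (by rw [k1, k2])) hrel n1 n2 hA0 hD0
  · rintro ⟨hB0, hC0⟩
    rw [hB, gen2] at hB0
    rw [hC, gen2] at hC0
    refine nd_part (fun j => !σ j) ?_ ?_ α β R hα hβ hR T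
      (fun i j k1 k2 => hTeq i j ?_) hrel n1 n2 hB0 hC0
    · obtain ⟨j, hj⟩ := h2
      exact ⟨j, by simp [hj]⟩
    · obtain ⟨j, hj⟩ := h1
      exact ⟨j, by simp [hj]⟩
    · simp only [Bool.not_eq_true'] at k1 k2
      rw [k1, k2]

end H38.HD
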