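import Mathlib

/-!
# [H38 HD Pell] solutions of `s² + M t² = 4`
-/

set_option autoImplicit false

namespace H38.HD

/-- the second coordinates double -/
theorem pell_step {D s t s' t' : ℤ} (hD : 1 ≤ D) (hs : 0 < s) (ht : 0 < t) (hs' : 0 < s') (ht' : 0 < t')
    (h : s ^ 2 = 4 + D * t ^ 2) (h' : s' ^ 2 = 4 + D * t' ^ 2) (hlt : t < t') : 2 * t ≤ t' := by
  -- parity
  have p1 : ∀ a b : ℤ, a ^ 2 = 4 + D * b ^ 2 → (2 : ℤ) ∣ a - D * b := by
    intro a b hab
    have e1 : Even (a ^ 2 - D * b ^ 2) := ⟨2, by linarith⟩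
    rcases Int.even_or_odd a with ha | ha <;> rcases Int.even_or_odd b with hb | hb <;>
      rcases Int.even_or_odd D with hd | hd <;>
      simp only [Int.even_sub, Int.even_pow, Int.even_mul, ne_eq, OfNat.ofNat_ne_zero, not_false_eq_true,
        and_true, ← even_iff_two_dvd] at e1 ⊢ <;> simp_all
  obtain ⟨u, hu⟩ := p1 s t h
  obtain ⟨v, hv⟩ := p1 s' t' h'
  have hDD : (2 : ℤ) ∣ D * (D - 1) := by
    have := Int.even_mul_pred_self D
    exact even_iff_two_dvd.1 this
  obtain ⟨e, he⟩ := hDD
  have es : s = D * t + 2 * u := by linarith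
  have es' : s' = D * t' + 2 * v := by linarith
  -- the quotient
  obtain ⟨r, hr⟩ : ∃ r, t' * s - t * s' = 2 * r := ⟨t' * u - t * v, by rw [es, es']; ring⟩
  obtain ⟨S, hS⟩ : ∃ S, s * s' - D * t * t' = 2 * S :=
    ⟨D * t * v + D * t' * u + 2 * u * v + e * t * t', by
      rw [es, es']
      linear_combination t * t' * he⟩
  have hq : S ^ 2 = 4 + D * r ^ 2 := by
    have h1 : (2 * S) ^ 2 - D * (2 * r) ^ 2 = (s ^ 2 - D * t ^ 2) * (s' ^ 2 - D * t' ^ 2) := by
      rw [← hr, ← hS]
      ring
    rw [h, h'] at h1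
    linarith
  have hr0 : 0 < r := by
    have h1 : (t * s') ^ 2 < (t' * s) ^ 2 := by
      have h2 : (t' * s) ^ 2 - (t * s') ^ 2 = 4 * (t' ^ 2 - t ^ 2) := by
        linear_combination t' ^ 2 * h - t ^ 2 * h'
      have h3 : t ^ 2 < t' ^ 2 := by nlinarith
      linarith
    have h2 : t * s' < t' * s := lt_of_pow_lt_pow_left₀ 2 (by positivity) h1
    linarith
  have hS0 : 0 < S := by
    have h1 : (D * t * t') ^ 2 < (s * s') ^ 2 := by
      have h2 : (s * s') ^ 2 - (D * t * t') ^ 2 = 16 + 4 * D * (t ^ 2 + t' ^ 2) := by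
        linear_combination s' ^ 2 * h + (4 + D * t ^ 2) * h'
      have h3 : 0 < D * (t ^ 2 + t' ^ 2) := by positivity
      linarith
    have h2 : D * t * t' < s * s' := lt_of_pow_lt_pow_left₀ 2 (by positivity) h1
    linarith
  have hS3 : 3 ≤ S := by
    by_contra hc
    push Not at hc
    have h1 : S ≤ 2 := by omega
    have h2 : 1 ≤ D * r ^ 2 := by nlinarith [Int.one_le_abs hr0.ne', sq_nonneg r]
    nlinarith
  have hst : t ≤ s := by
    by_contra hc
    push Not at hc
    have h1 : t ^ 2 ≤ D * t ^ 2 := le_mul_of_one_le_left (by positivity) hD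
    nlinarith
  have hkey : 2 * t' = S * t + r * s := by
    have h1 : 2 * (2 * t') = 2 * (S * t + r * s) := by
      linear_combination t * hS + s * hr - t' * h
    linarith
  have h1 : 3 * t ≤ S * t := mul_le_mul_of_nonneg_right hS3 ht.le
  have h2 : 1 * t ≤ r * s := mul_le_mul hr0 hst ht.le hr0.le
  linarith

/-- a set of positive integers in which the numbers double -/
theorem pell_log (Y : ℕ) (A : Finset ℤ) (hA : ∀ t ∈ A, 0 < t ∧ t ≤ Y)
    (h : ∀ t ∈ A, ∀ t' ∈ A, t < t' → 2 * t ≤ t') : A.card ≤ Nat.log 2 Y + 1 := by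
  have hinj : Set.InjOn (fun t : ℤ => Nat.log 2 t.toNat) (A : Set ℤ) := by
    have key : ∀ t ∈ A, ∀ t' ∈ A, t < t' → Nat.log 2 t.toNat ≠ Nat.log 2 t'.toNat := by
      intro t ht t' ht' hlt
      have h1 := h t ht t' ht' hlt
      have h2 := (hA t ht).1
      have h3 : 2 * t.toNat ≤ t'.toNat := by omega
      have h4 : Nat.log 2 (2 * t.toNat) = Nat.log 2 t.toNat + 1 := by
        rw [mul_comm]
        exact Nat.log_mul_base (by norm_num) (by omega)
      have h5 := Nat.log_mono_right (b := 2) h3
      omega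
    intro t ht t' ht' he
    rcases lt_trichotomy t t' with hlt | heq | hgt
    · exact absurd he (key t ht t' ht' hlt)
    · exact heq
    · exact absurd he.symm (key t' ht' t ht hgt)
  have h1 := Finset.card_le_card_of_injOn (t := Finset.range (Nat.log 2 Y + 1))
    (fun t : ℤ => Nat.log 2 t.toNat) (by
      intro t ht
      rw [Finset.mem_coe, Finset.mem_range]
      have h2 := hA t ht
      have h3 : t.toNat ≤ Y := by omega
      exact Nat.lt_succ_of_le (Nat.log_mono_right h3)) hinj
  rwa [Finset.card_range] at h1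

theorem pell4 (M : ℤ) (hM : M ≠ 0) (Y : ℕ) (hY : 1 ≤ Y) (F : Finset (ℤ × ℤ))
    (hF : ∀ p ∈ F, p.1 ^ 2 + M * p.2 ^ 2 = 4 ∧ |p.1| ≤ Y ∧ |p.2| ≤ Y) :
    (F.card : ℝ) ≤ 100 * (1 + Real.log Y) := by
  classical
  have hY1 : (1 : ℝ) ≤ Y := by exact_mod_cast hY
  have hlog : 0 ≤ Real.log Y := Real.log_nonneg hY1
  rcases lt_or_gt_of_ne hM with hneg | hpos
  · -- M = -D
    obtain ⟨D, hD⟩ : ∃ D : ℤ, M = -D := ⟨-M, by ring⟩
    have hD1 : 1 ≤ D := by omega
    -- absolute values
    set G : Finset ℤ := (F.image fun p => |p.2|).filter fun t => 0 < t with hG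
    have hGlog : G.card ≤ Nat.log 2 Y + 1 := by
      refine pell_log Y G (fun t ht => ?_) fun t ht t' ht' hlt => ?_
      · obtain ⟨h1, h2⟩ := Finset.mem_filter.1 ht
        obtain ⟨p, hp, rfl⟩ := Finset.mem_image.1 h1
        exact ⟨h2, (hF p hp).2.2⟩
      · obtain ⟨h1, h2⟩ := Finset.mem_filter.1 ht
        obtain ⟨p, hp, rfl⟩ := Finset.mem_image.1 h1
        obtain ⟨h1', h2'⟩ := Finset.mem_filter.1 ht'
        obtain ⟨p', hp', rfl⟩ := Finset.mem_image.1 h1'
        have e1 : |p.1| ^ 2 = 4 + D * |p.2| ^ 2 := by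
          rw [sq_abs, sq_abs]
          have := (hF p hp).1
          rw [hD] at this
          linarith
        have e2 : |p'.1| ^ 2 = 4 + D * |p'.2| ^ 2 := by
          rw [sq_abs, sq_abs]
          have := (hF p' hp').1
          rw [hD] at this
          linarith
        have f1 : 0 < |p.1| := by
          rw [abs_pos]
          intro h0
          rw [h0, abs_zero, zero_pow (by norm_num)] at e1
          have : 0 ≤ D * |p.2| ^ 2 := by positivity
          linarith
        have f2 : 0 < |p'.1| := by
          rw [abs_pos]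
          intro h0
          rw [h0, abs_zero, zero_pow (by norm_num)] at e2
          have : 0 ≤ D * |p'.2| ^ 2 := by positivity
          linarith
        exact pell_step hD1 f1 h2 f2 h2' e1 e2 hlt
    -- F embeds into signs times G with 0
    have hcard : F.card ≤ 4 * (G.card + 1) := by
      have h1 : F.card ≤ ((Finset.univ : Finset (Bool × Bool)) ×ˢ (insert (0 : ℤ) G)).card := by
        refine Finset.card_le_card_of_injOn (fun p => ((decide (0 < p.1), decide (0 < p.2)), |p.2|)) ?_ ?_
        · intro p hp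
          rw [Finset.mem_coe, Finset.mem_product]
          refine ⟨Finset.mem_univ _, ?_⟩
          rcases (abs_nonneg p.2).eq_or_lt with h0 | h0
          · show |p.2| ∈ insert 0 G
            rw [← h0]
            exact Finset.mem_insert_self _ _
          · exact Finset.mem_insert_of_mem (Finset.mem_filter.2 ⟨Finset.mem_image.2 ⟨p, hp, rfl⟩, h0⟩)
        · intro p hp p' hp' he
          rw [Prod.mk.injEq, Prod.mk.injEq] at he
          obtain ⟨⟨h1, h2⟩, h3⟩ := he
          have h2' : (0 < p.2) ↔ (0 < p'.2) := by simpa using h2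
          have h1' : (0 < p.1) ↔ (0 < p'.1) := by simpa using h1
          have h4 : p.2 = p'.2 := by
            rcases abs_eq_abs.1 h3 with h5 | h5
            · exact h5
            · rcases lt_trichotomy p.2 0 with h6 | h6 | h6
              · have : 0 < p'.2 := by omega
                have := h2'.2 this
                omega
              · omega
              · have := h2'.1 h6
                omega
          have h5 : p.1 ^ 2 = p'.1 ^ 2 := by
            have e1 := (hF p hp).1
            have e2 := (hF p' hp').1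
            rw [h4] at e1
            linarith
          have h6 : p.1 ≠ 0 := by
            intro h0
            have e1 := (hF p hp).1
            rw [h0, hD] at e1
            have : 0 ≤ D * p.2 ^ 2 := by positivity
            linarith
          have h7 : p.1 = p'.1 := by
            rcases sq_eq_sq_iff_eq_or_eq_neg.1 h5 with h8 | h8
            · exact h8
            · rcases lt_or_gt_of_ne h6 with h9 | h9
              · have : 0 < p'.1 := by omega
                have := h1'.2 this
                omega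
              · have := h1'.1 h9
                omega
          exact Prod.ext h7 h4
      rw [Finset.card_product] at h1
      have h2 : (Finset.univ : Finset (Bool × Bool)).card = 4 := rfl
      rw [h2] at h1
      exact h1.trans (Nat.mul_le_mul_left _ (Finset.card_insert_le _ _))
    have hF2 : F.card ≤ 4 * (Nat.log 2 Y + 2) := hcard.trans (by omega)
    have hl : (Nat.log 2 Y : ℝ) ≤ 2 * Real.log Y := by
      have h1 : (2 : ℝ) ^ (Nat.log 2 Y) ≤ Y := by
        exact_mod_cast Nat.pow_log_le_self 2 (by omega)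
      have h2 := Real.log_le_log (by positivity) h1
      rw [Real.log_pow] at h2
      have h3 := Real.log_two_gt_d9
      have h4 : (0 : ℝ) ≤ Nat.log 2 Y := Nat.cast_nonneg _
      nlinarith
    have h5 : (F.card : ℝ) ≤ 4 * (Nat.log 2 Y + 2) := by exact_mod_cast hF2
    linarith
  · -- M > 0
    have hsub : F ⊆ (Finset.Icc (-2 : ℤ) 2) ×ˢ (Finset.Icc (-2 : ℤ) 2) := by
      intro p hp
      have h1 := (hF p hp).1
      have h2 : p.2 ^ 2 ≤ M * p.2 ^ 2 := le_mul_of_one_le_left (sq_nonneg _) hpos
      have h3 : p.1 ^ 2 ≤ 4 := by nlinarith [sq_nonneg p.2]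
      have h4 : p.2 ^ 2 ≤ 4 := by nlinarith [sq_nonneg p.1]
      rw [Finset.mem_product, Finset.mem_Icc, Finset.mem_Icc]
      refine ⟨⟨?_, ?_⟩, ?_, ?_⟩ <;> nlinarith
    have h1 := Finset.card_le_card hsub
    have h2 : ((Finset.Icc (-2 : ℤ) 2) ×ˢ (Finset.Icc (-2 : ℤ) 2)).card = 25 := by decide
    rw [h2] at h1
    have h3 : (F.card : ℝ) ≤ 25 := by exact_mod_cast h1
    linarith

end H38.HD
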