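import Pool.Agent.H92.DivBound
import Pool.Agent.H38.HD.Cls
import Pool.Agent.H38.HD.Pell

/-!
# Representations by `x² + m y²`, uniform bound
-/

set_option autoImplicit false

namespace H38.HD

private theorem cop_n (m n x y : ℤ) (h : x ^ 2 + m * y ^ 2 = n) (c : IsCoprime x y) : IsCoprime y n := by
  have h1 : IsCoprime (x ^ 2) y := c.pow_left
  have h2 : IsCoprime (x ^ 2 + y * (m * y)) y := (IsCoprime.add_mul_left_left_iff).2 h1
  have h3 : x ^ 2 + y * (m * y) = n := by rw [← h]; ring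
  rw [h3] at h2
  exact h2.symm

private theorem key (m n x₁ y₁ x y x' y' : ℤ) (h₁ : x₁ ^ 2 + m * y₁ ^ 2 = n)
    (h : x ^ 2 + m * y ^ 2 = n) (h' : x' ^ 2 + m * y' ^ 2 = n) (c₁ : IsCoprime x₁ y₁) (c : IsCoprime x y)
    (hsq : ∀ r : ℕ, r.Prime → ¬ ((r : ℤ) ^ 2 ∣ m ∧ (r : ℤ) ^ 2 ∣ n))
    (hd : Int.gcd n (x₁ * y - x * y₁) = Int.gcd n (x₁ * y' - x' * y₁))
    (he : Int.gcd n (x₁ * y + x * y₁) = Int.gcd n (x₁ * y' + x' * y₁)) :
    n ∣ 2 * (x * y' - x' * y) := by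
  have cy₁ := cop_n m n x₁ y₁ h₁ c₁
  have cy := cop_n m n x y h c
  obtain ⟨w, hw⟩ : ∃ w : ℤ, n = (Int.gcd x₁ n : ℤ) * w := Int.gcd_dvd_right x₁ n
  set g : ℤ := (Int.gcd x₁ n : ℤ) with hg
  have hgx : g ∣ x₁ := Int.gcd_dvd_left x₁ n
  have hgn : g ∣ n := Int.gcd_dvd_right x₁ n
  have hwn : w ∣ n := ⟨g, by rw [hw]; ring⟩
  have hgy : IsCoprime g y₁ := (IsCoprime.of_isCoprime_of_dvd_right cy₁ hgn).symm
  have hgm : g ∣ m := by
    have h2 : g ∣ m * y₁ ^ 2 := by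
      have h3 : m * y₁ ^ 2 = n - x₁ * x₁ := by rw [← h₁]; ring
      rw [h3]
      exact dvd_sub hgn (hgx.mul_right _)
    exact (hgy.pow_right).dvd_of_dvd_mul_right h2
  -- `x₁` is prime to `w`
  have hxw : IsCoprime x₁ w := by
    rw [Int.isCoprime_iff_gcd_eq_one]
    by_contra hne
    obtain ⟨r, hr, hrd⟩ := Nat.exists_prime_and_dvd hne
    have h2 : (r : ℤ) ∣ x₁ := (Int.natCast_dvd_natCast.2 hrd).trans (Int.gcd_dvd_left x₁ w)
    have h3 : (r : ℤ) ∣ w := (Int.natCast_dvd_natCast.2 hrd).trans (Int.gcd_dvd_right x₁ w)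
    have h4 : (r : ℤ) ∣ g := Int.dvd_coe_gcd h2 (h3.trans hwn)
    have h5 : (r : ℤ) ^ 2 ∣ n := by
      rw [hw, sq]
      exact mul_dvd_mul h4 h3
    have h6 : (r : ℤ) ^ 2 ∣ m := by
      have h7 : (r : ℤ) ^ 2 ∣ m * y₁ ^ 2 := by
        have h8 : m * y₁ ^ 2 = n - x₁ ^ 2 := by rw [← h₁]; ring
        rw [h8]
        exact dvd_sub h5 (pow_dvd_pow_of_dvd h2 2)
      have h9 : IsCoprime ((r : ℤ) ^ 2) (y₁ ^ 2) :=
        ((IsCoprime.of_isCoprime_of_dvd_right cy₁ (h4.trans hgn)).symm.pow : IsCoprime ((r : ℤ) ^ 2) (y₁ ^ 2))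
      exact h9.dvd_of_dvd_mul_right h7
    exact hsq r hr ⟨h6, h5⟩
  have hgw : IsCoprime g w := IsCoprime.of_isCoprime_of_dvd_left hxw hgx
  -- `g` divides `x` and `x'`
  have hsf : Squarefree g := by
    rw [← Int.squarefree_natAbs, Nat.squarefree_iff_prime_squarefree]
    intro r hr hrd
    have h2 : (r : ℤ) ^ 2 ∣ g := by
      rw [sq, ← Int.natCast_mul]
      exact Int.natCast_dvd.2 hrd
    exact hsq r hr ⟨h2.trans hgm, h2.trans hgn⟩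
  have hgX : ∀ X Y : ℤ, X ^ 2 + m * Y ^ 2 = n → g ∣ X := by
    intro X Y hXY
    have h2 : g ∣ X ^ 2 := by
      have h3 : X ^ 2 = n - m * Y ^ 2 := by rw [← hXY]; ring
      rw [h3]
      exact dvd_sub hgn (hgm.mul_right _)
    exact (hsf.dvd_pow_iff_dvd two_ne_zero).1 h2
  have hg1 : g ∣ 2 * (x * y' - x' * y) :=
    (dvd_sub ((hgX x y h).mul_right _) ((hgX x' y' h').mul_right _)).mul_left _
  -- `w` divides the double
  set d : ℤ := (Int.gcd w (x₁ * y - x * y₁) : ℤ) with hdd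
  set e : ℤ := (Int.gcd w (x₁ * y + x * y₁) : ℤ) with hee
  have d1 : d ∣ w := Int.gcd_dvd_left _ _
  have d2 : d ∣ x₁ * y - x * y₁ := Int.gcd_dvd_right _ _
  have e1 : e ∣ w := Int.gcd_dvd_left _ _
  have e2 : e ∣ x₁ * y + x * y₁ := Int.gcd_dvd_right _ _
  have d3 : d ∣ x₁ * y' - x' * y₁ := by
    have h2 : d ∣ (Int.gcd n (x₁ * y - x * y₁) : ℤ) := Int.dvd_coe_gcd (d1.trans hwn) d2
    rw [hd] at h2
    exact h2.trans (Int.gcd_dvd_right _ _)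
  have e3 : e ∣ x₁ * y' + x' * y₁ := by
    have h2 : e ∣ (Int.gcd n (x₁ * y + x * y₁) : ℤ) := Int.dvd_coe_gcd (e1.trans hwn) e2
    rw [he] at h2
    exact h2.trans (Int.gcd_dvd_right _ _)
  have d4 : d ∣ x * y' - x' * y := by
    have h2 : d ∣ y₁ * (x * y' - x' * y) := by
      have h3 : y₁ * (x * y' - x' * y) = (x₁ * y' - x' * y₁) * y - (x₁ * y - x * y₁) * y' := by ring
      rw [h3]
      exact dvd_sub (d3.mul_right _) (d2.mul_right _)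
    exact ((IsCoprime.of_isCoprime_of_dvd_right cy₁ (d1.trans hwn)).symm).dvd_of_dvd_mul_left h2
  have e4 : e ∣ x * y' - x' * y := by
    have h2 : e ∣ y₁ * (x * y' - x' * y) := by
      have h3 : y₁ * (x * y' - x' * y) = (x₁ * y + x * y₁) * y' - (x₁ * y' + x' * y₁) * y := by ring
      rw [h3]
      exact dvd_sub (e2.mul_right _) (e3.mul_right _)
    exact ((IsCoprime.of_isCoprime_of_dvd_right cy₁ (e1.trans hwn)).symm).dvd_of_dvd_mul_left h2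
  have hde : w ∣ d * e := by
    have h2 : w ∣ (x₁ * y - x * y₁) * (x₁ * y + x * y₁) := by
      have h3 : (x₁ * y - x * y₁) * (x₁ * y + x * y₁) = n * (y ^ 2 - y₁ ^ 2) := by
        have h4 : x₁ ^ 2 = n - m * y₁ ^ 2 := by rw [← h₁]; ring
        have h5 : x ^ 2 = n - m * y ^ 2 := by rw [← h]; ring
        calc (x₁ * y - x * y₁) * (x₁ * y + x * y₁) = x₁ ^ 2 * y ^ 2 - x ^ 2 * y₁ ^ 2 := by ring
          _ = n * (y ^ 2 - y₁ ^ 2) := by rw [h4, h5]; ring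
      rw [h3]
      exact hwn.mul_right _
    obtain ⟨u2, v2, hu2⟩ : ∃ u v : ℤ, e = w * u + (x₁ * y + x * y₁) * v :=
      ⟨_, _, Int.gcd_eq_gcd_ab w (x₁ * y + x * y₁)⟩
    obtain ⟨u3, v3, hu3⟩ : ∃ u v : ℤ, d = w * u + (x₁ * y - x * y₁) * v :=
      ⟨_, _, Int.gcd_eq_gcd_ab w (x₁ * y - x * y₁)⟩
    have h4 : d * e = w * (u3 * (w * u2 + (x₁ * y + x * y₁) * v2) + (x₁ * y - x * y₁) * v3 * u2) +
        ((x₁ * y - x * y₁) * (x₁ * y + x * y₁)) * (v3 * v2) := by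
      rw [hu3, hu2]; ring
    rw [h4]
    exact dvd_add (Dvd.intro _ rfl) (h2.mul_right _)
  have hg2 : (Int.gcd d e : ℤ) ∣ 2 := by
    have h2 : (Int.gcd d e : ℤ) ∣ 2 * (x₁ * y) := by
      have h3 : 2 * (x₁ * y) = (x₁ * y - x * y₁) + (x₁ * y + x * y₁) := by ring
      rw [h3]
      exact dvd_add ((Int.gcd_dvd_left d e).trans d2) ((Int.gcd_dvd_right d e).trans e2)
    have h4 : (Int.gcd d e : ℤ) ∣ w := (Int.gcd_dvd_left d e).trans d1
    have h5 : IsCoprime (Int.gcd d e : ℤ) (x₁ * y) :=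
      IsCoprime.mul_right (IsCoprime.of_isCoprime_of_dvd_right hxw h4).symm
        (IsCoprime.of_isCoprime_of_dvd_right cy (h4.trans hwn)).symm
    exact h5.dvd_of_dvd_mul_right h2
  have hw2 : w ∣ 2 * (x * y' - x' * y) := by
    refine hde.trans ?_
    obtain ⟨k, hk⟩ := hg2
    have h2 : (Int.gcd d e : ℤ) = d * Int.gcdA d e + e * Int.gcdB d e := Int.gcd_eq_gcd_ab d e
    have h3 : 2 * (x * y' - x' * y) =
        k * Int.gcdA d e * (d * (x * y' - x' * y)) + k * Int.gcdB d e * (e * (x * y' - x' * y)) := by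
      rw [hk, h2]; ring
    rw [h3]
    refine dvd_add (Dvd.dvd.mul_left ?_ _) (Dvd.dvd.mul_left ?_ _)
    · exact mul_dvd_mul_left d e4
    · rw [mul_comm d e]
      exact mul_dvd_mul_left e d4
  rw [hw]
  exact hgw.mul_dvd hg1 hw2

/-- the statement of `class_card` -/
private def Cls : Prop := ∀ (m n : ℤ) (_ : m ≠ 0) (_ : n ≠ 0) (X : ℕ) (_ : 1 ≤ X) (_ : |m| ≤ X)
    (F : Finset (ℤ × ℤ)) (_ : ∀ p ∈ F, p.1 ^ 2 + m * p.2 ^ 2 = n ∧ |p.1| ≤ X ∧ |p.2| ≤ X)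
    (_ : ∀ p ∈ F, ∀ q ∈ F, n ∣ 2 * (p.1 * q.2 - q.1 * p.2)),
    (F.card : ℝ) ≤ 1000 * (1 + Real.log X)

private theorem core (hcls : Cls) (m n : ℤ) (hm : m ≠ 0) (hn : n ≠ 0) (X : ℕ) (hX : 1 ≤ X) (hmX : |m| ≤ X)
    (hsq : ∀ r : ℕ, r.Prime → ¬ ((r : ℤ) ^ 2 ∣ m ∧ (r : ℤ) ^ 2 ∣ n)) (F : Finset (ℤ × ℤ))
    (hF : ∀ p ∈ F, p.1 ^ 2 + m * p.2 ^ 2 = n ∧ |p.1| ≤ X ∧ |p.2| ≤ X) (hc : ∀ p ∈ F, IsCoprime p.1 p.2) :
    (F.card : ℝ) ≤ (n.natAbs.divisors.card : ℝ) ^ 2 * (1000 * (1 + Real.log X)) := by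
  have hL : 0 ≤ 1000 * (1 + Real.log X) := by
    have := Real.log_nonneg (x := (X : ℝ)) (by exact_mod_cast hX)
    linarith
  rcases F.eq_empty_or_nonempty with rfl | ⟨p₁, hp₁⟩
  · rw [Finset.card_empty, Nat.cast_zero]
    positivity
  have hn' : n.natAbs ≠ 0 := Int.natAbs_ne_zero.2 hn
  set D := n.natAbs.divisors with hD
  have hmap : ∀ p ∈ F, (fun p : ℤ × ℤ => (Int.gcd n (p₁.1 * p.2 - p.1 * p₁.2), Int.gcd n (p₁.1 * p.2 + p.1 * p₁.2))) p ∈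
      D ×ˢ D := by
    intro p _
    simp only [Finset.mem_product, hD, Nat.mem_divisors]
    exact ⟨⟨Nat.gcd_dvd_left _ _, hn'⟩, ⟨Nat.gcd_dvd_left _ _, hn'⟩⟩
  rw [Finset.card_eq_sum_card_fiberwise hmap, Nat.cast_sum]
  calc (∑ b ∈ D ×ˢ D, ((F.filter fun p => (Int.gcd n (p₁.1 * p.2 - p.1 * p₁.2), Int.gcd n (p₁.1 * p.2 + p.1 * p₁.2)) = b).card : ℝ))
      ≤ ∑ _b ∈ D ×ˢ D, (1000 * (1 + Real.log X)) := by
        refine Finset.sum_le_sum fun b _ => ?_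
        refine hcls m n hm hn X hX hmX _ (fun p hp => hF p (Finset.mem_filter.1 hp).1) ?_
        intro p hp q hq
        rw [Finset.mem_filter] at hp hq
        have h1 := hp.2.trans hq.2.symm
        rw [Prod.mk.injEq] at h1
        exact key m n p₁.1 p₁.2 p.1 p.2 q.1 q.2 (hF _ hp₁).1 (hF _ hp.1).1 (hF _ hq.1).1 (hc _ hp₁) (hc _ hp.1) hsq
          h1.1 h1.2
    _ = (D.card : ℝ) ^ 2 * (1000 * (1 + Real.log X)) := by
        rw [Finset.sum_const, nsmul_eq_mul, Finset.card_product]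
        push_cast
        ring

private theorem div_card (a b : ℤ) (h : a ∣ b) (hb : b ≠ 0) :
    (a.natAbs.divisors.card : ℝ) ≤ (b.natAbs.divisors.card : ℝ) := by
  exact_mod_cast Finset.card_le_card (Nat.divisors_subset_of_dvd (Int.natAbs_ne_zero.2 hb) (Int.natAbs_dvd_natAbs.2 h))

private theorem cop (hcls : Cls) (X : ℕ) (hX : 1 ≤ X) : ∀ N : ℕ, ∀ m n : ℤ, n.natAbs = N → m ≠ 0 → n ≠ 0 →
    |m| ≤ X → ∀ F : Finset (ℤ × ℤ), (∀ p ∈ F, p.1 ^ 2 + m * p.2 ^ 2 = n ∧ |p.1| ≤ X ∧ |p.2| ≤ X) →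
    (∀ p ∈ F, IsCoprime p.1 p.2) →
    (F.card : ℝ) ≤ (n.natAbs.divisors.card : ℝ) ^ 2 * (1000 * (1 + Real.log X)) := by
  have hL : 0 ≤ 1000 * (1 + Real.log X) := by
    have := Real.log_nonneg (x := (X : ℝ)) (by exact_mod_cast hX)
    linarith
  intro N
  induction N using Nat.strong_induction_on with
  | _ N ih =>
    intro m n hN hm hn hmX F hF hc
    by_cases hsq : ∀ r : ℕ, r.Prime → ¬ ((r : ℤ) ^ 2 ∣ m ∧ (r : ℤ) ^ 2 ∣ n)
    · exact core hcls m n hm hn X hX hmX hsq F hF hc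
    push Not at hsq
    obtain ⟨r, hr, ⟨m', rfl⟩, ⟨n', rfl⟩⟩ := hsq
    have hr0 : (r : ℤ) ≠ 0 := by exact_mod_cast hr.ne_zero
    have hr1 : (1 : ℤ) ≤ r := by exact_mod_cast hr.one_le
    have hm' : m' ≠ 0 := right_ne_zero_of_mul hm
    have hn' : n' ≠ 0 := right_ne_zero_of_mul hn
    have hdv : ∀ p ∈ F, ∃ x : ℤ, p.1 = r * x := by
      intro p hp
      have h1 : (r : ℤ) ^ 2 ∣ p.1 ^ 2 := by
        have h2 : p.1 ^ 2 = (r : ℤ) ^ 2 * (n' - m' * p.2 ^ 2) := by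
          have := (hF p hp).1
          linear_combination this
        rw [h2]
        exact Dvd.intro _ rfl
      exact (Int.pow_dvd_pow_iff two_ne_zero).1 h1
    have hinj : Set.InjOn (fun p : ℤ × ℤ => (p.1 / (r : ℤ), p.2)) (F : Set (ℤ × ℤ)) := by
      intro p hp q hq hpq
      obtain ⟨x, hx⟩ := hdv p hp
      obtain ⟨x', hx'⟩ := hdv q hq
      simp only [Prod.mk.injEq] at hpq
      rw [hx, hx', Int.mul_ediv_cancel_left _ hr0, Int.mul_ediv_cancel_left _ hr0] at hpq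
      exact Prod.ext (by rw [hx, hx', hpq.1]) hpq.2
    rw [← Finset.card_image_of_injOn hinj]
    have hlt : n'.natAbs < N := by
      rw [← hN, Int.natAbs_mul, Int.natAbs_pow, Int.natAbs_natCast]
      have h2 : 2 ≤ r := hr.two_le
      have h3 : 0 < n'.natAbs := Int.natAbs_pos.2 hn'
      nlinarith [Nat.pow_le_pow_left h2 2]
    have hmX' : |m'| ≤ X := by
      refine le_trans ?_ hmX
      rw [abs_mul]
      have : (1 : ℤ) ≤ |(r : ℤ) ^ 2| := by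
        rw [abs_of_nonneg (by positivity)]
        nlinarith
      nlinarith [abs_nonneg m']
    refine (ih _ hlt m' n' rfl hm' hn' hmX' _ ?_ ?_).trans ?_
    · intro q hq
      obtain ⟨p, hp, rfl⟩ := Finset.mem_image.1 hq
      obtain ⟨x, hx⟩ := hdv p hp
      obtain ⟨h1, h2, h3⟩ := hF p hp
      simp only
      rw [hx, Int.mul_ediv_cancel_left _ hr0]
      refine ⟨?_, ?_, h3⟩
      · rw [hx] at h1
        have h4 : (r : ℤ) ^ 2 * (x ^ 2 + m' * p.2 ^ 2) = (r : ℤ) ^ 2 * n' := by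
          linear_combination h1
        exact mul_left_cancel₀ (pow_ne_zero 2 hr0) h4
      · refine le_trans ?_ h2
        rw [hx, abs_mul, Nat.abs_cast]
        nlinarith [abs_nonneg x]
    · intro q hq
      obtain ⟨p, hp, rfl⟩ := Finset.mem_image.1 hq
      obtain ⟨x, hx⟩ := hdv p hp
      have h1 := hc p hp
      simp only
      rw [hx, Int.mul_ediv_cancel_left _ hr0]
      rw [hx] at h1
      exact h1.of_mul_left_right
    · have h1 := div_card n' ((r : ℤ) ^ 2 * n') (Dvd.intro_left _ rfl) hn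
      gcongr

private theorem gen (hcls : Cls) (X : ℕ) (hX : 1 ≤ X) (m n : ℤ) (hm : m ≠ 0) (hn : n ≠ 0)
    (hmX : |m| ≤ X) (F : Finset (ℤ × ℤ)) (hF : ∀ p ∈ F, p.1 ^ 2 + m * p.2 ^ 2 = n ∧ |p.1| ≤ X ∧ |p.2| ≤ X) :
    (F.card : ℝ) ≤ (n.natAbs.divisors.card : ℝ) ^ 3 * (1000 * (1 + Real.log X)) := by
  have hL : 0 ≤ 1000 * (1 + Real.log X) := by
    have := Real.log_nonneg (x := (X : ℝ)) (by exact_mod_cast hX)
    linarith
  have hn' : n.natAbs ≠ 0 := Int.natAbs_ne_zero.2 hn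
  set D := n.natAbs.divisors with hD
  have hsq : ∀ p ∈ F, ((Int.gcd p.1 p.2 : ℤ)) ^ 2 ∣ n := by
    intro p hp
    rw [← (hF p hp).1]
    exact dvd_add (pow_dvd_pow_of_dvd (Int.gcd_dvd_left _ _) 2)
      ((pow_dvd_pow_of_dvd (Int.gcd_dvd_right _ _) 2).mul_left _)
  have hmap : ∀ p ∈ F, (fun p : ℤ × ℤ => Int.gcd p.1 p.2) p ∈ D := by
    intro p hp
    simp only [hD, Nat.mem_divisors]
    refine ⟨?_, hn'⟩
    have h1 : (Int.gcd p.1 p.2 : ℤ) ∣ n := (dvd_pow_self _ two_ne_zero).trans (hsq p hp)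
    exact Int.natCast_dvd.1 h1
  rw [Finset.card_eq_sum_card_fiberwise hmap, Nat.cast_sum]
  calc (∑ g ∈ D, ((F.filter fun p => Int.gcd p.1 p.2 = g).card : ℝ))
      ≤ ∑ _g ∈ D, ((D.card : ℝ) ^ 2 * (1000 * (1 + Real.log X))) := by
        refine Finset.sum_le_sum fun g hg => ?_
        have hg0 : (g : ℤ) ≠ 0 := by exact_mod_cast (Nat.pos_of_mem_divisors hg).ne'
        have hg1 : (1 : ℤ) ≤ g := by exact_mod_cast Nat.pos_of_mem_divisors hg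
        rcases (F.filter fun p => Int.gcd p.1 p.2 = g).eq_empty_or_nonempty with he | ⟨p₀, hp₀⟩
        · rw [he, Finset.card_empty, Nat.cast_zero]
          positivity
        obtain ⟨n', hn1⟩ : (g : ℤ) ^ 2 ∣ n := by
          rw [Finset.mem_filter] at hp₀
          have := hsq p₀ hp₀.1
          rwa [hp₀.2] at this
        have hn2 : n' ≠ 0 := by
          rintro rfl
          exact hn (by rw [hn1, mul_zero])
        have hdv : ∀ p ∈ (F.filter fun p => Int.gcd p.1 p.2 = g), ∃ x y : ℤ, p.1 = g * x ∧ p.2 = g * y ∧ IsCoprime x y := by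
          intro p hp
          rw [Finset.mem_filter] at hp
          obtain ⟨x, hx⟩ : (g : ℤ) ∣ p.1 := by rw [← hp.2]; exact Int.gcd_dvd_left _ _
          obtain ⟨y, hy⟩ : (g : ℤ) ∣ p.2 := by rw [← hp.2]; exact Int.gcd_dvd_right _ _
          refine ⟨x, y, hx, hy, ?_⟩
          rw [Int.isCoprime_iff_gcd_eq_one]
          have h1 := hp.2
          rw [hx, hy, Int.gcd_mul_left, Int.natAbs_natCast] at h1
          exact Nat.eq_of_mul_eq_mul_left (Nat.pos_of_mem_divisors hg) (by rw [h1, mul_one])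
        have hinj : Set.InjOn (fun p : ℤ × ℤ => (p.1 / (g : ℤ), p.2 / (g : ℤ)))
            ((F.filter fun p => Int.gcd p.1 p.2 = g : Finset (ℤ × ℤ)) : Set (ℤ × ℤ)) := by
          intro p hp q hq hpq
          obtain ⟨x, y, hx, hy, _⟩ := hdv p hp
          obtain ⟨x', y', hx', hy', _⟩ := hdv q hq
          simp only [Prod.mk.injEq] at hpq
          rw [hx, hx', hy, hy', Int.mul_ediv_cancel_left _ hg0, Int.mul_ediv_cancel_left _ hg0,
            Int.mul_ediv_cancel_left _ hg0, Int.mul_ediv_cancel_left _ hg0] at hpq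
          exact Prod.ext (by rw [hx, hx', hpq.1]) (by rw [hy, hy', hpq.2])
        rw [← Finset.card_image_of_injOn hinj]
        have hle : ∀ x : ℤ, |x| ≤ |(g : ℤ) * x| := by
          intro x
          rw [abs_mul, Nat.abs_cast]
          nlinarith [abs_nonneg x]
        refine (cop hcls X hX _ m n' rfl hm hn2 hmX _ ?_ ?_).trans ?_
        · intro q hq
          obtain ⟨p, hp, rfl⟩ := Finset.mem_image.1 hq
          obtain ⟨x, y, hx, hy, _⟩ := hdv p hp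
          obtain ⟨h1, h2, h3⟩ := hF p (Finset.mem_filter.1 hp).1
          simp only
          rw [hx, hy, Int.mul_ediv_cancel_left _ hg0, Int.mul_ediv_cancel_left _ hg0]
          rw [hx] at h2
          rw [hy] at h3
          refine ⟨?_, (hle x).trans h2, (hle y).trans h3⟩
          rw [hx, hy, hn1] at h1
          have h4 : (g : ℤ) ^ 2 * (x ^ 2 + m * y ^ 2) = (g : ℤ) ^ 2 * n' := by
            linear_combination h1
          exact mul_left_cancel₀ (pow_ne_zero 2 hg0) h4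
        · intro q hq
          obtain ⟨p, hp, rfl⟩ := Finset.mem_image.1 hq
          obtain ⟨x, y, hx, hy, hxy⟩ := hdv p hp
          simp only
          rw [hx, hy, Int.mul_ediv_cancel_left _ hg0, Int.mul_ediv_cancel_left _ hg0]
          exact hxy
        · have h1 := div_card n' n (by rw [hn1]; exact Dvd.intro_left _ rfl) hn
          rw [← hD] at h1
          gcongr
    _ = (D.card : ℝ) ^ 3 * (1000 * (1 + Real.log X)) := by
        rw [Finset.sum_const, nsmul_eq_mul]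
        ring

/-- `rep` with the statement of `class_card` as a hypothesis -/
theorem rep_of (hcls : ∀ (m n : ℤ) (_ : m ≠ 0) (_ : n ≠ 0) (X : ℕ) (_ : 1 ≤ X) (_ : |m| ≤ X)
    (F : Finset (ℤ × ℤ)) (_ : ∀ p ∈ F, p.1 ^ 2 + m * p.2 ^ 2 = n ∧ |p.1| ≤ X ∧ |p.2| ≤ X)
    (_ : ∀ p ∈ F, ∀ q ∈ F, n ∣ 2 * (p.1 * q.2 - q.1 * p.2)),
    (F.card : ℝ) ≤ 1000 * (1 + Real.log X))
    (ε : ℝ) (hε : 0 < ε) : ∃ K : ℝ, 0 < K ∧ ∀ X : ℕ, 1 ≤ X → ∀ m n : ℤ, m ≠ 0 → n ≠ 0 →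
    |m| ≤ X → |n| ≤ X → ∀ F : Finset (ℤ × ℤ),
    (∀ p ∈ F, p.1 ^ 2 + m * p.2 ^ 2 = n ∧ |p.1| ≤ X ∧ |p.2| ≤ X) → (F.card : ℝ) ≤ K * (X : ℝ) ^ ε := by
  obtain ⟨C, hC, hdiv⟩ := Pool.Agent.H5.W.divisor_bound (ε / 6) (by positivity)
  refine ⟨C ^ 3 * (1000 * (1 + 2 / ε)), by positivity, ?_⟩
  intro X hX m n hm hn hmX hnX F hF
  have hX1 : (1 : ℝ) ≤ X := by exact_mod_cast hX
  have hX0 : (0 : ℝ) < X := by linarith
  have h1 := gen hcls X hX m n hm hn hmX F hF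
  have h2 : (n.natAbs.divisors.card : ℝ) ≤ C * (X : ℝ) ^ (ε / 6) := by
    refine (hdiv n.natAbs (Int.natAbs_pos.2 hn)).trans ?_
    have h3 : (n.natAbs : ℝ) ≤ X := by
      have h4 : (n.natAbs : ℤ) ≤ X := by rw [Int.natCast_natAbs]; exact hnX
      exact_mod_cast h4
    gcongr
  have h3 : 1 + Real.log X ≤ (1 + 2 / ε) * (X : ℝ) ^ (ε / 2) := by
    have h4 : Real.log X ≤ (X : ℝ) ^ (ε / 2) / (ε / 2) := Real.log_le_rpow_div hX0.le (by positivity)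
    have h5 : (1 : ℝ) ≤ (X : ℝ) ^ (ε / 2) := Real.one_le_rpow hX1 (by positivity)
    have h6 : (X : ℝ) ^ (ε / 2) / (ε / 2) = 2 / ε * (X : ℝ) ^ (ε / 2) := by field_simp
    rw [h6] at h4
    linarith
  have h7 : ((X : ℝ) ^ (ε / 6)) ^ 3 * (X : ℝ) ^ (ε / 2) = (X : ℝ) ^ ε := by
    rw [← Real.rpow_natCast, ← Real.rpow_mul hX0.le, ← Real.rpow_add hX0]
    congr 1
    push_cast
    ring
  calc (F.card : ℝ) ≤ (n.natAbs.divisors.card : ℝ) ^ 3 * (1000 * (1 + Real.log X)) := h1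
    _ ≤ (C * (X : ℝ) ^ (ε / 6)) ^ 3 * (1000 * ((1 + 2 / ε) * (X : ℝ) ^ (ε / 2))) := by
        have := Real.log_nonneg hX1
        gcongr
    _ = C ^ 3 * (1000 * (1 + 2 / ε)) * (((X : ℝ) ^ (ε / 6)) ^ 3 * (X : ℝ) ^ (ε / 2)) := by ring
    _ = C ^ 3 * (1000 * (1 + 2 / ε)) * (X : ℝ) ^ ε := by rw [h7]

/-- `rep` with the statement of `pell4` as a hypothesis -/
theorem rep_of_pell (hpell : ∀ M : ℤ, M ≠ 0 → ∀ Y : ℕ, 1 ≤ Y → ∀ F : Finset (ℤ × ℤ),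
      (∀ p ∈ F, p.1 ^ 2 + M * p.2 ^ 2 = 4 ∧ |p.1| ≤ Y ∧ |p.2| ≤ Y) →
      (F.card : ℝ) ≤ 100 * (1 + Real.log Y))
    (ε : ℝ) (hε : 0 < ε) : ∃ K : ℝ, 0 < K ∧ ∀ X : ℕ, 1 ≤ X → ∀ m n : ℤ, m ≠ 0 → n ≠ 0 →
    |m| ≤ X → |n| ≤ X → ∀ F : Finset (ℤ × ℤ),
    (∀ p ∈ F, p.1 ^ 2 + m * p.2 ^ 2 = n ∧ |p.1| ≤ X ∧ |p.2| ≤ X) → (F.card : ℝ) ≤ K * (X : ℝ) ^ ε :=
  rep_of (fun m n hm hn X hX hmX F hF hcl => class_card_of hpell m n hm hn X hX hmX F hF hcl) ε hε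

/-- `x² + m y² = n` has at most `K X^ε` solutions with all numbers at most `X` in absolute value -/
theorem rep (ε : ℝ) (hε : 0 < ε) : ∃ K : ℝ, 0 < K ∧ ∀ X : ℕ, 1 ≤ X → ∀ m n : ℤ, m ≠ 0 → n ≠ 0 →
    |m| ≤ X → |n| ≤ X → ∀ F : Finset (ℤ × ℤ),
    (∀ p ∈ F, p.1 ^ 2 + m * p.2 ^ 2 = n ∧ |p.1| ≤ X ∧ |p.2| ≤ X) → (F.card : ℝ) ≤ K * (X : ℝ) ^ ε :=
  rep_of_pell (fun M hM Y hY F hF => pell4 M hM Y hY F hF) ε hε

end H38.HD
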