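import Pool.Agent.H38.HC.Rigid

/-!
[H38 HD Two] three large cells: a pair of complementary cells and a third cell
-/

set_option autoImplicit false

namespace H38.HD

open H38.HC Finset

private theorem comp_comp (v : V) : comp (comp v) = v := by
  funext j
  simp [comp]

private theorem prod_comp (z : V → ℕ) : ∏ u, z (comp u) = ∏ u, z u :=
  Fintype.prod_bijective comp (Function.Involutive.bijective comp_comp) _ _ fun _ => rfl

/-- the pair product -/
private def pp (z : V → ℕ) (v : V) : ℕ := z v * z (comp v)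

private theorem pp_comp (z : V → ℕ) (v : V) : pp z (comp v) = pp z v := by
  unfold pp
  rw [comp_comp, mul_comm]

/-- the square of the product over all cells is the product of the pair products -/
private theorem sq_prod (z : V → ℕ) : (∏ u, z u) ^ 2 = ∏ u, pp z u := by
  unfold pp
  rw [prod_mul_distrib, prod_comp, sq]

private theorem two_pairs (z : V → ℕ) (hz : ∀ u, 0 < z u) : ∃ v a : V, a ≠ v ∧ a ≠ comp v ∧
    ∏ u, z u ≤ (pp z v * pp z a) ^ 4 := by
  obtain ⟨v, _, hv⟩ := exists_max_image (univ : Finset V) (pp z) univ_nonempty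
  have hne : (univ.filter fun u : V => u ≠ v ∧ u ≠ comp v).Nonempty := by
    by_contra h
    rw [not_nonempty_iff_eq_empty] at h
    have h1 : (univ : Finset V) ⊆ {v, comp v} := by
      intro u _
      by_contra hu
      rw [mem_insert, mem_singleton, not_or] at hu
      have : u ∈ (univ.filter fun u : V => u ≠ v ∧ u ≠ comp v) := by simp [hu.1, hu.2]
      rw [h] at this
      exact absurd this (notMem_empty u)
    have h2 := card_le_card h1
    have h3 : ({v, comp v} : Finset V).card ≤ 2 := card_le_two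
    have h4 : (univ : Finset V).card = 16 := by simp
    omega
  obtain ⟨a, ha1, ha⟩ := exists_max_image (univ.filter fun u : V => u ≠ v ∧ u ≠ comp v) (pp z) hne
  rw [mem_filter] at ha1
  refine ⟨v, a, ha1.2.1, ha1.2.2, ?_⟩
  have h1 : (∏ u, z u) ^ 2 ≤ (pp z v * pp z a) ^ 8 := by
    rw [sq_prod, prod_pair v (pp z), pp_comp]
    have h2 : ∏ u, (if u = v ∨ u = comp v then 1 else pp z u) ≤
        ∏ u, (if u = v ∨ u = comp v then 1 else pp z a) := by
      refine prod_le_prod' fun u _ => ?_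
      split_ifs with h
      · exact le_rfl
      · rw [not_or] at h
        exact ha u (mem_filter.2 ⟨mem_univ _, h⟩)
    have h3 : ∏ u, (if u = v ∨ u = comp v then 1 else pp z a) = pp z a ^ 14 := by
      have h4 := prod_pair v fun _ => pp z a
      rw [prod_const, card_univ] at h4
      have h5 : Fintype.card V = 16 := by simp
      rw [h5] at h4
      have h6 : 0 < pp z a := Nat.mul_pos (hz _) (hz _)
      have h7 : pp z a ^ 16 = pp z a * pp z a * pp z a ^ 14 := by ring
      rw [h7] at h4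
      exact (Nat.eq_of_mul_eq_mul_left (Nat.mul_pos h6 h6) h4).symm
    rw [h3] at h2
    have hav : pp z a ≤ pp z v := hv a (mem_univ _)
    calc pp z v * pp z v * ∏ u, (if u = v ∨ u = comp v then 1 else pp z u)
        ≤ pp z v * pp z v * pp z a ^ 14 := Nat.mul_le_mul_left _ h2
      _ = pp z v ^ 2 * pp z a ^ 8 * pp z a ^ 6 := by ring
      _ ≤ pp z v ^ 2 * pp z a ^ 8 * pp z v ^ 6 := Nat.mul_le_mul_left _ (Nat.pow_le_pow_left hav 6)
      _ = (pp z v * pp z a) ^ 8 := by ring
  have h2 : (pp z v * pp z a) ^ 8 = ((pp z v * pp z a) ^ 4) ^ 2 := by ring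
  rw [h2] at h1
  exact le_of_pow_le_pow_left₀ (by norm_num) (Nat.zero_le _) h1

private theorem four (a b c d P : ℕ) (h : P ≤ (a * b * (c * d)) ^ 4) (h1 : d ≤ a) (h2 : d ≤ b)
    (h3 : d ≤ c) : P ^ 3 ≤ (a * b * c) ^ 16 := by
  have h4 : d ^ 3 ≤ a * b * c := by
    calc d ^ 3 = d * d * d := by ring
      _ ≤ a * b * c := Nat.mul_le_mul (Nat.mul_le_mul h1 h2) h3
  calc P ^ 3 ≤ ((a * b * (c * d)) ^ 4) ^ 3 := Nat.pow_le_pow_left h 3
    _ = (a * b * c) ^ 12 * (d ^ 3) ^ 4 := by ring
    _ ≤ (a * b * c) ^ 12 * (a * b * c) ^ 4 := Nat.mul_le_mul_left _ (Nat.pow_le_pow_left h4 4)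
    _ = (a * b * c) ^ 16 := by ring

theorem exists_pair2 (z : V → ℕ) (hz : ∀ u, 0 < z u) : ∃ v1 v2 : V, v2 ≠ v1 ∧ v2 ≠ comp v1 ∧
    (∏ u, z u) ^ 3 ≤ (z v1 * z (comp v1) * z v2) ^ 16 := by
  obtain ⟨v, a, hav, hac, h⟩ := two_pairs z hz
  have hva : v ≠ a := fun e => hav e.symm
  have hvc : v ≠ comp a := fun e => hac (by rw [e, comp_comp])
  have hcv : comp v ≠ a := fun e => hac e.symm
  have hcc : comp v ≠ comp a := fun e => hav (by rw [← comp_comp a, ← e, comp_comp])
  have hcc' : comp a ≠ comp v := fun e => hcc e.symm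
  have hca : comp a ≠ v := fun e => hvc e.symm
  unfold pp at h
  -- the least of the four cells
  have key : ∀ v1 v2 : V, v2 ≠ v1 → v2 ≠ comp v1 →
      (∏ u, z u) ≤ (z v1 * z (comp v1) * (z v2 * z (comp v2))) ^ 4 →
      z (comp v2) ≤ z v1 → z (comp v2) ≤ z (comp v1) → z (comp v2) ≤ z v2 →
      ∃ v1 v2 : V, v2 ≠ v1 ∧ v2 ≠ comp v1 ∧
        (∏ u, z u) ^ 3 ≤ (z v1 * z (comp v1) * z v2) ^ 16 :=
    fun v1 v2 e1 e2 e3 e4 e5 e6 => ⟨v1, v2, e1, e2, four _ _ _ _ _ e3 e4 e5 e6⟩
  rcases le_total (min (z v) (z (comp v))) (min (z a) (z (comp a))) with hm | hm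
  · rcases le_total (z v) (z (comp v)) with h1 | h1
    · rw [min_eq_left h1, le_min_iff] at hm
      refine key a (comp v) hcv hcc ?_ ?_ ?_ ?_
      · rw [comp_comp]
        refine h.trans (le_of_eq ?_)
        ring
      · rw [comp_comp]; exact hm.1
      · rw [comp_comp]; exact hm.2
      · rw [comp_comp]; exact h1
    · rw [min_eq_right h1, le_min_iff] at hm
      refine key a v hva hvc ?_ hm.1 hm.2 h1
      refine h.trans (le_of_eq ?_)
      ring
  · rcases le_total (z a) (z (comp a)) with h1 | h1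
    · rw [min_eq_left h1, le_min_iff] at hm
      refine key v (comp a) hca hcc' ?_ ?_ ?_ ?_
      · rw [comp_comp]
        refine h.trans (le_of_eq ?_)
        ring
      · rw [comp_comp]; exact hm.1
      · rw [comp_comp]; exact hm.2
      · rw [comp_comp]; exact h1
    · rw [min_eq_right h1, le_min_iff] at hm
      refine key v a hav hac ?_ hm.1 hm.2 h1
      exact h

end H38.HD
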