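import Pool.Agent.H38.HC.Final
import Pool.Agent.H38.HD.Dec
import Pool.Agent.H38.HD.LemK
import Pool.Agent.H38.HD.NonDeg
import Pool.Agent.H38.HD.Rep
import Pool.Agent.H38.HD.Two

/-!
Counting with two pairs of complementary cells: thirteen cells, and `N^ε` values for one more.
-/

set_option autoImplicit false

open Finset

namespace H38.HD

open H38.HC

/-- thirteen cells -/
def rest13 (v1 v2 : V) (z : V → ℕ) : V → ℕ :=
  fun u => if u = v1 ∨ u = comp v1 ∨ u = v2 then 1 else z u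

theorem rest_rest13 (v1 v2 : V) (z : V → ℕ) : rest v2 (rest13 v1 v2 z) = rest2 v1 v2 z := by
  funext u
  unfold rest2 rest rest13
  by_cases h1 : u = v1
  · simp [h1]
  · by_cases h2 : u = comp v1
    · simp [h2]
    · by_cases h3 : u = v2
      · simp [h3]
      · by_cases h4 : u = comp v2
        · simp [h4]
        · simp [h1, h2, h3, h4]

def Ph (v1 v2 : V) (ρ : V → ℕ) (j : Fin 4) : ℕ :=
  ∏ u, (if (u j == v1 j) = true then rest v2 ρ u else 1)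

def Qh (v1 v2 : V) (ρ : V → ℕ) (j : Fin 4) : ℕ :=
  ∏ u, (if (u j != v1 j) = true then rest v2 ρ u else 1)

theorem Ph_eq (v1 v2 : V) (z : V → ℕ) (j : Fin 4) :
    Ph v1 v2 (rest13 v1 v2 z) j = P2 v1 v2 z j := by
  rw [Ph, P2, rest_rest13]

theorem Qh_eq (v1 v2 : V) (z : V → ℕ) (j : Fin 4) :
    Qh v1 v2 (rest13 v1 v2 z) j = Q2 v1 v2 z j := by
  rw [Qh, Q2, rest_rest13]

def sg (v1 v2 : V) (j : Fin 4) : Bool := v2 j == v1 j

def cA (v1 v2 : V) (ρ : V → ℕ) : ℤ := ∑ j, if sg v1 v2 j = true then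
  (![1, -1, -1, 1] : Fin 4 → ℤ) j * (Ph v1 v2 ρ j : ℤ) ^ 2 else 0
def cB (v1 v2 : V) (ρ : V → ℕ) : ℤ := ∑ j, if sg v1 v2 j = true then 0 else
  (![1, -1, -1, 1] : Fin 4 → ℤ) j * (Ph v1 v2 ρ j : ℤ) ^ 2
def cC (v1 v2 : V) (ρ : V → ℕ) : ℤ := ∑ j, if sg v1 v2 j = true then 0 else
  (![1, -1, -1, 1] : Fin 4 → ℤ) j * (Qh v1 v2 ρ j : ℤ) ^ 2
def cD (v1 v2 : V) (ρ : V → ℕ) : ℤ := ∑ j, if sg v1 v2 j = true then
  (![1, -1, -1, 1] : Fin 4 → ℤ) j * (Qh v1 v2 ρ j : ℤ) ^ 2 else 0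

/-- admissible values of the fourteenth cell -/
def Adm (N : ℕ) (v1 v2 : V) (ρ : V → ℕ) (w : ℕ) : Prop :=
  (0 < ρ (comp v2) ∧ ρ (comp v2) ≤ N) ∧ (∏ u, ρ u ≤ N) ∧ (∀ u, 0 < ρ u) ∧
  (cA v1 v2 ρ * cD v1 v2 ρ - cB v1 v2 ρ * cC v1 v2 ρ ≠ 0) ∧
  ¬ (cA v1 v2 ρ = 0 ∧ cD v1 v2 ρ = 0) ∧ ¬ (cB v1 v2 ρ = 0 ∧ cC v1 v2 ρ = 0) ∧
  0 < w ∧ w ≤ N ∧ IsCoprime (w : ℤ) (ρ (comp v2) : ℤ) ∧
  ∃ u v : ℤ, 0 < u ∧ u ≤ N ∧ 0 < v ∧ v ≤ N ∧ IsCoprime u v ∧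
    u ^ 2 * (cA v1 v2 ρ * w ^ 2 + cB v1 v2 ρ * (ρ (comp v2) : ℤ) ^ 2) +
      v ^ 2 * (cC v1 v2 ρ * w ^ 2 + cD v1 v2 ρ * (ρ (comp v2) : ℤ) ^ 2) = 0

theorem ep_le (j : Fin 4) : |(![1, -1, -1, 1] : Fin 4 → ℤ) j| ≤ 1 := by
  fin_cases j <;> simp

theorem abs_sum4 (σ : Fin 4 → Bool) (p : Fin 4 → ℕ) (N : ℕ) (hp : ∀ j, p j ≤ N) :
    |∑ j, if σ j = true then (![1, -1, -1, 1] : Fin 4 → ℤ) j * (p j : ℤ) ^ 2 else 0| ≤
      ((4 * N ^ 2 : ℕ) : ℤ) ∧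
    |∑ j, if σ j = true then 0 else (![1, -1, -1, 1] : Fin 4 → ℤ) j * (p j : ℤ) ^ 2| ≤
      ((4 * N ^ 2 : ℕ) : ℤ) := by
  have h : ∀ j, |(![1, -1, -1, 1] : Fin 4 → ℤ) j * (p j : ℤ) ^ 2| ≤ (N : ℤ) ^ 2 := by
    intro j
    rw [abs_mul, abs_of_nonneg (by positivity : (0 : ℤ) ≤ (p j : ℤ) ^ 2)]
    have h1 : (p j : ℤ) ^ 2 ≤ (N : ℤ) ^ 2 :=
      pow_le_pow_left₀ (by positivity) (by exact_mod_cast hp j) 2
    calc |(![1, -1, -1, 1] : Fin 4 → ℤ) j| * (p j : ℤ) ^ 2 ≤ 1 * (p j : ℤ) ^ 2 :=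
          mul_le_mul_of_nonneg_right (ep_le j) (by positivity)
      _ ≤ _ := by rw [one_mul]; exact h1
  have hN : (0 : ℤ) ≤ (N : ℤ) ^ 2 := by positivity
  constructor
  · refine (abs_sum_le_sum_abs _ _).trans ?_
    refine (sum_le_card_nsmul _ _ ((N : ℤ) ^ 2) fun j _ => ?_).trans (by simp)
    split_ifs
    · exact h j
    · simpa using hN
  · refine (abs_sum_le_sum_abs _ _).trans ?_
    refine (sum_le_card_nsmul _ _ ((N : ℤ) ^ 2) fun j _ => ?_).trans (by simp)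
    split_ifs
    · simpa using hN
    · exact h j

theorem prod_part_le (ρ : V → ℕ) (hρ : ∀ u, 0 < ρ u) (v2 : V) (T : V → Bool) {N : ℕ}
    (h : ∏ u, ρ u ≤ N) : ∏ u, (if T u = true then rest v2 ρ u else 1) ≤ N := by
  refine le_trans (prod_le_prod' fun u _ => ?_) h
  unfold rest
  have := hρ u
  split_ifs <;> omega

/-- at most `K N^ε` admissible values -/
theorem adm_card (ε : ℝ) (hε : 0 < ε) : ∃ K : ℝ, 0 < K ∧ ∀ N : ℕ, 1 ≤ N → ∀ (v1 v2 : V)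
    (ρ : V → ℕ) (F : Finset ℕ), (∀ w ∈ F, Adm N v1 v2 ρ w) → (F.card : ℝ) ≤ K * (N : ℝ) ^ ε := by
  obtain ⟨K, hK, h⟩ := lemK rep (ε / 2) (by positivity)
  refine ⟨K * 4 ^ (ε / 2) + 1, by positivity, fun N hN v1 v2 ρ F hF => ?_⟩
  have hN0 : (1 : ℝ) ≤ N := by exact_mod_cast hN
  rcases F.eq_empty_or_nonempty with h0 | ⟨w0, hw0⟩
  · rw [h0, card_empty]
    push_cast
    positivity
  · obtain ⟨⟨a1, a2⟩, a3, a4, a5, a6, a7, -⟩ := hF w0 hw0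
    have hX : 1 ≤ 4 * N ^ 2 := by nlinarith
    have hNX : N ≤ 4 * N ^ 2 := by nlinarith
    have hNXz : (N : ℤ) ≤ ((4 * N ^ 2 : ℕ) : ℤ) := by exact_mod_cast hNX
    have hP : ∀ j, Ph v1 v2 ρ j ≤ N := fun j => prod_part_le ρ a4 v2 _ a3
    have hQ : ∀ j, Qh v1 v2 ρ j ≤ N := fun j => prod_part_le ρ a4 v2 _ a3
    have key := h (4 * N ^ 2) hX (cA v1 v2 ρ) (cB v1 v2 ρ) (cC v1 v2 ρ) (cD v1 v2 ρ)
      (ρ (comp v2)) (abs_sum4 _ _ N hP).1 (abs_sum4 _ _ N hP).2 (abs_sum4 _ _ N hQ).2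
      (abs_sum4 _ _ N hQ).1 (by exact_mod_cast a1) (by exact_mod_cast a2.trans hNX) a5 a6 a7 F ?_
    · refine key.trans ?_
      have e1 : (((4 * N ^ 2 : ℕ) : ℝ)) ^ (ε / 2) = 4 ^ (ε / 2) * (N : ℝ) ^ ε := by
        push_cast
        rw [Real.mul_rpow (by norm_num) (by positivity), ← Real.rpow_natCast,
          ← Real.rpow_mul (by positivity)]
        congr 2
        push_cast
        ring
      rw [e1]
      have : 0 ≤ (N : ℝ) ^ ε := by positivity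
      nlinarith
    · intro w hw
      obtain ⟨-, -, -, -, -, -, b1, b2, b3, u, v, c1, c2, c3, c4, c5, c6⟩ := hF w hw
      exact ⟨b1, b2.trans hNX, b3, u, v, c1, c2.trans hNXz, c3, c4.trans hNXz, c5, c6⟩

theorem prod13 {v1 v2 : V} (z : V → ℕ) (h : v2 ≠ v1) (h' : v2 ≠ comp v1) :
    ∏ u, z u = z v1 * z (comp v1) * z v2 * ∏ u, rest13 v1 v2 z u := by
  have h1 : ∏ u, rest v1 z u = z v2 * ∏ u, rest13 v1 v2 z u := by
    have h2 : ∀ u, rest v1 z u = (if u = v2 then z v2 else 1) * rest13 v1 v2 z u := by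
      intro u
      unfold rest rest13
      by_cases g : u = v2
      · subst g
        simp [h, h']
      · by_cases g' : u = v1
        · simp [g', h.symm]
        · by_cases g'' : u = comp v1
          · simp [g'', h'.symm]
          · simp [g, g', g'']
    rw [prod_congr rfl fun u _ => h2 u, prod_mul_distrib]
    simp
  rw [prod_pair v1 z]
  change z v1 * z (comp v1) * ∏ u, rest v1 z u = _
  rw [h1]; ring

theorem base_ne {N : ℕ} {c : ℤ × (Fin 3 → ℤ)} (hc : c ∈ Cubes 3 N) :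
    base c 0 ≠ base c 1 ∧ base c 0 ≠ base c 2 := by
  constructor
  · have := (hc.2.2.1 1).1
    simp [base, this]
  · have := (hc.2.2.1 2).1
    simp [base, this]

end H38.HD
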