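import Pool.Agent.H38.HD.Cnt1

set_option autoImplicit false

open Finset

namespace H38.HD

open H38.HC

theorem sg_exists {v1 v2 : V} (g : v2 ≠ v1) (g' : v2 ≠ comp v1) :
    (∃ j, sg v1 v2 j = true) ∧ ∃ j, sg v1 v2 j = false := by
  constructor
  · by_contra hcon
    push Not at hcon
    apply g'
    funext j
    have := hcon j
    simp only [sg, comp] at this ⊢
    revert this
    cases v2 j <;> cases v1 j <;> simp
  · by_contra hcon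
    push Not at hcon
    apply g
    funext j
    have := hcon j
    simp only [sg] at this ⊢
    revert this
    cases v2 j <;> cases v1 j <;> simp

theorem rest2_pos (z : V → ℕ) (hz : ∀ u, 0 < z u) (v1 v2 : V) (u : V) : 0 < rest2 v1 v2 z u := by
  unfold rest2 rest
  have := hz u
  split_ifs <;> first | exact one_pos | exact this

theorem P2_pos (z : V → ℕ) (hz : ∀ u, 0 < z u) (v1 v2 : V) (j : Fin 4) : 0 < P2 v1 v2 z j := by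
  refine prod_pos fun u _ => ?_
  split_ifs
  · exact rest2_pos z hz v1 v2 u
  · exact one_pos

theorem Q2_pos (z : V → ℕ) (hz : ∀ u, 0 < z u) (v1 v2 : V) (j : Fin 4) : 0 < Q2 v1 v2 z j := by
  refine prod_pos fun u _ => ?_
  split_ifs
  · exact rest2_pos z hz v1 v2 u
  · exact one_pos

theorem rel_nd {N : ℕ} {c : ℤ × (Fin 3 → ℤ)} (hc : c ∈ Cubes 3 N) {t : ℕ} {z : V → ℕ}
    (h : Desc c t z) {v1 v2 : V} (g : v2 ≠ v1) (g' : v2 ≠ comp v1) (ρ : V → ℕ)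
    (hρ : ρ = rest13 v1 v2 z) :
    (z v1 : ℤ) ^ 2 * (cA v1 v2 ρ * (z v2 : ℤ) ^ 2 + cB v1 v2 ρ * (z (comp v2) : ℤ) ^ 2) +
      (z (comp v1) : ℤ) ^ 2 * (cC v1 v2 ρ * (z v2 : ℤ) ^ 2 + cD v1 v2 ρ * (z (comp v2) : ℤ) ^ 2)
      = 0 ∧ cA v1 v2 ρ * cD v1 v2 ρ - cB v1 v2 ρ * cC v1 v2 ρ ≠ 0 ∧
    ¬ (cA v1 v2 ρ = 0 ∧ cD v1 v2 ρ = 0) ∧ ¬ (cB v1 v2 ρ = 0 ∧ cC v1 v2 ρ = 0) := by
  obtain ⟨b1, b2⟩ := base_ne hc
  obtain ⟨s1, s2⟩ := sg_exists g g'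
  obtain ⟨α, hα⟩ : ∃ α : Fin 4 → ℤ, α = fun j => (P2 v1 v2 z j : ℤ) ^ 2 := ⟨_, rfl⟩
  obtain ⟨β, hβ⟩ : ∃ β : Fin 4 → ℤ, β = fun j => (Q2 v1 v2 z j : ℤ) ^ 2 := ⟨_, rfl⟩
  obtain ⟨T, hT⟩ : ∃ T : Fin 4 → ℤ, T = fun j => (S z j : ℤ) ^ 2 + (E z j : ℤ) ^ 2 := ⟨_, rfl⟩
  obtain ⟨R, hR⟩ : ∃ R : ℤ, R = ((∏ u, rest2 v1 v2 z u : ℕ) : ℤ) ^ 2 := ⟨_, rfl⟩
  obtain ⟨a, ha⟩ : ∃ a : ℤ, a = (z v1 : ℤ) := ⟨_, rfl⟩
  obtain ⟨b, hb⟩ : ∃ b : ℤ, b = (z (comp v1) : ℤ) := ⟨_, rfl⟩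
  obtain ⟨w, hw⟩ : ∃ w : ℤ, w = (z v2 : ℤ) := ⟨_, rfl⟩
  obtain ⟨y, hy⟩ : ∃ y : ℤ, y = (z (comp v2) : ℤ) := ⟨_, rfl⟩
  have a0 : 0 < a := by rw [ha]; exact_mod_cast h.z0 _
  have b0 : 0 < b := by rw [hb]; exact_mod_cast h.z0 _
  have w0 : 0 < w := by rw [hw]; exact_mod_cast h.z0 _
  have y0 : 0 < y := by rw [hy]; exact_mod_cast h.z0 _
  have hαpos : ∀ j, 0 < α j := fun j => by
    rw [hα]
    have h0 : (0 : ℤ) < P2 v1 v2 z j := by exact_mod_cast P2_pos z h.z0 v1 v2 j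
    exact pow_pos h0 2
  have hβpos : ∀ j, 0 < β j := fun j => by
    rw [hβ]
    have h0 : (0 : ℤ) < Q2 v1 v2 z j := by exact_mod_cast Q2_pos z h.z0 v1 v2 j
    exact pow_pos h0 2
  have hab : ∀ j, α j * β j = R := fun j => by
    have h0 : (P2 v1 v2 z j : ℤ) * Q2 v1 v2 z j = ((∏ u, rest2 v1 v2 z u : ℕ) : ℤ) := by
      exact_mod_cast P2Q2 v1 v2 z j
    rw [hα, hβ, hR, ← h0]
    exact (mul_pow _ _ 2).symm
  have hTj : ∀ j, T j = if sg v1 v2 j = true then a ^ 2 * w ^ 2 * α j + b ^ 2 * y ^ 2 * β j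
      else a ^ 2 * y ^ 2 * α j + b ^ 2 * w ^ 2 * β j := fun j => by
    have h0 := SE_sq2 z g g' j
    have h1 : T j = ((S z j ^ 2 + E z j ^ 2 : ℕ) : ℤ) := by rw [hT]; push_cast; rfl
    rw [h1, h0, hα, hβ, ha, hb, hw, hy]
    by_cases hs : v2 j = v1 j
    · have hs' : sg v1 v2 j = true := by simp [sg, hs]
      rw [if_pos hs, if_pos hs']
      push_cast
      rfl
    · have hs' : ¬ sg v1 v2 j = true := by simp [sg, hs]
      rw [if_neg hs, if_neg hs']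
      push_cast
      rfl
  have hrel : T 0 + T 3 = T 1 + T 2 := by
    have h0 := h.rel
    rw [hT]
    beta_reduce
    exact_mod_cast h0
  have n1 : T 0 ≠ T 1 := by
    have h0 := h.ne b1
    rw [hT]
    beta_reduce
    exact_mod_cast h0
  have n2 : T 0 ≠ T 2 := by
    have h0 := h.ne b2
    rw [hT]
    beta_reduce
    exact_mod_cast h0
  have hcA : cA v1 v2 ρ = ∑ j, if sg v1 v2 j = true then
      (![1, -1, -1, 1] : Fin 4 → ℤ) j * α j else 0 := by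
    rw [cA, hρ, hα]
    refine sum_congr rfl fun j _ => ?_
    rw [Ph_eq]
  have hcB : cB v1 v2 ρ = ∑ j, if sg v1 v2 j = true then 0 else
      (![1, -1, -1, 1] : Fin 4 → ℤ) j * α j := by
    rw [cB, hρ, hα]
    refine sum_congr rfl fun j _ => ?_
    rw [Ph_eq]
  have hcC : cC v1 v2 ρ = ∑ j, if sg v1 v2 j = true then 0 else
      (![1, -1, -1, 1] : Fin 4 → ℤ) j * β j := by
    rw [cC, hρ, hβ]
    refine sum_congr rfl fun j _ => ?_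
    rw [Qh_eq]
  have hcD : cD v1 v2 ρ = ∑ j, if sg v1 v2 j = true then
      (![1, -1, -1, 1] : Fin 4 → ℤ) j * β j else 0 := by
    rw [cD, hρ, hβ]
    refine sum_congr rfl fun j _ => ?_
    rw [Qh_eq]
  have key := nondeg (sg v1 v2) s1 s2 α β R hαpos hβpos hab (a ^ 2) (w ^ 2) (b ^ 2) (y ^ 2)
    (pow_pos a0 2) (pow_pos w0 2) (pow_pos b0 2) (pow_pos y0 2) T hTj hrel n1 n2
    (cA v1 v2 ρ) (cB v1 v2 ρ) (cC v1 v2 ρ) (cD v1 v2 ρ) hcA hcB hcC hcD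
  rw [← ha, ← hb, ← hw, ← hy]
  exact key

/-- the fourteenth cell is admissible -/
theorem adm {N : ℕ} {c : ℤ × (Fin 3 → ℤ)} (hc : c ∈ Cubes 3 N) {t : ℕ} {z : V → ℕ}
    (h : Desc c t z) (hcop : ∀ v, Nat.Coprime (z v) (z (comp v))) {v1 v2 : V} (g : v2 ≠ v1)
    (g' : v2 ≠ comp v1) : Adm N v1 v2 (rest13 v1 v2 z) (z v2) := by
  have hn : t ^ 2 * ∏ u, z u ≤ N := by
    have h1 := (hc.2.2.1 0).2
    have h2 := le_trans (le_abs_self _) h1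
    rw [h.n] at h2
    exact_mod_cast h2
  have ht : 1 ≤ t ^ 2 := Nat.one_le_pow _ _ h.t0
  have hnz : ∏ u, z u ≤ N := le_trans (Nat.le_mul_of_pos_left _ ht) hn
  have hzN : ∀ u, z u ≤ N := fun u =>
    le_trans (Nat.le_of_dvd (prod_pos fun u _ => h.z0 u) (dvd_prod_of_mem z (mem_univ u))) hnz
  have hρ0 : ∀ u, 0 < rest13 v1 v2 z u := fun u => by
    unfold rest13; split_ifs
    · exact one_pos
    · exact h.z0 u
  have hρ : ∏ u, rest13 v1 v2 z u ≤ N := by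
    refine le_trans ?_ hnz
    rw [prod13 z g g']
    exact Nat.le_mul_of_pos_left _ (Nat.mul_pos (Nat.mul_pos (h.z0 _) (h.z0 _)) (h.z0 _))
  obtain ⟨k, k'⟩ := ne_comp g g'
  have hz2 : rest13 v1 v2 z (comp v2) = z (comp v2) := by
    unfold rest13
    rw [if_neg]
    rintro (h0 | h0 | h0)
    · exact k h0
    · exact k' h0
    · exact comp_ne v2 h0
  obtain ⟨k1, k2, k3, k4⟩ := rel_nd hc h g g' _ rfl
  refine ⟨⟨hρ0 _, by rw [hz2]; exact hzN _⟩, hρ, hρ0, k2, k3, k4, h.z0 _, hzN _, ?_,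
    (z v1 : ℤ), (z (comp v1) : ℤ), Nat.cast_pos.2 (h.z0 _), Nat.cast_le.2 (hzN _),
    Nat.cast_pos.2 (h.z0 _), Nat.cast_le.2 (hzN _), ?_, ?_⟩
  · rw [hz2]
    exact Nat.isCoprime_iff_coprime.2 (hcop v2)
  · exact Nat.isCoprime_iff_coprime.2 (hcop v1)
  · rw [hz2]
    exact k1

end H38.HD
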