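import Pool.Agent.H38.HD.Cnt2

/-!
The number of Hilbert cubes in the squares: exponent `13/16`.
-/

set_option autoImplicit false

open Finset

namespace H38.HD

open H38.HC

/-- the base codes: two cells, `t`, thirteen cells -/
def bcodes (N : ℕ) : Finset ((V × V) × ℕ × (V → ℕ)) :=
  ((range (N + 1)).filter (fun m => 1 ≤ m ∧ m ^ 16 ≤ N ^ 13)).biUnion fun m =>
    univ ×ˢ (m.divisors ×ˢ Fintype.piFinset fun _ => m.divisors)

open Classical in
/-- the admissible values as a finite set -/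
noncomputable def admF (N : ℕ) (c : (V × V) × ℕ × (V → ℕ)) : Finset ℕ :=
  (range (N + 1)).filter (fun w => Adm N c.1.1 c.1.2 c.2.2 w)

theorem mem_bcodes {N : ℕ} {c : ℤ × (Fin 3 → ℤ)} (hN : 1 ≤ N) (hc : c ∈ Cubes 3 N)
    {t : ℕ} {z : V → ℕ} (h : Desc c t z) {v1 v2 : V} (g : v2 ≠ v1) (g' : v2 ≠ comp v1)
    (hv : (∏ u, z u) ^ 3 ≤ (z v1 * z (comp v1) * z v2) ^ 16) :
    ((v1, v2), t, rest13 v1 v2 z) ∈ bcodes N := by
  have hr0 : ∀ u, 0 < rest13 v1 v2 z u := fun u => by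
    unfold rest13; split_ifs
    · exact one_pos
    · exact h.z0 u
  have hR0 : 0 < ∏ u, rest13 v1 v2 z u := prod_pos fun u _ => hr0 u
  have hn : t ^ 2 * ∏ u, z u ≤ N := by
    have h1 := (hc.2.2.1 0).2
    have h2 := le_trans (le_abs_self _) h1
    rw [h.n] at h2
    exact_mod_cast h2
  have hp := prod13 z g g'
  have hm0 : 1 ≤ t * ∏ u, rest13 v1 v2 z u := Nat.mul_pos h.t0 hR0
  obtain ⟨R, hR⟩ : ∃ R, R = ∏ u, rest13 v1 v2 z u := ⟨_, rfl⟩
  obtain ⟨n, hnn⟩ : ∃ n, n = ∏ u, z u := ⟨_, rfl⟩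
  obtain ⟨d, hd⟩ : ∃ d, d = z v1 * z (comp v1) * z v2 := ⟨_, rfl⟩
  have hn0 : 0 < n := hnn ▸ prod_pos fun u _ => h.z0 u
  rw [← hR] at hp hm0 hR0
  rw [← hnn] at hv hn hp
  rw [← hd] at hv hp
  have h3 : R ^ 16 ≤ n ^ 13 := by
    have h4 : n ^ 3 * R ^ 16 ≤ n ^ 3 * n ^ 13 := by
      calc n ^ 3 * R ^ 16 ≤ d ^ 16 * R ^ 16 := Nat.mul_le_mul_right _ hv
        _ = n ^ 16 := by rw [hp]; ring
        _ = n ^ 3 * n ^ 13 := by ring
    exact Nat.le_of_mul_le_mul_left h4 (pow_pos hn0 3)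
  have hm : (t * R) ^ 16 ≤ N ^ 13 := by
    calc (t * R) ^ 16 = t ^ 16 * R ^ 16 := by ring
      _ ≤ t ^ 26 * n ^ 13 := Nat.mul_le_mul (Nat.pow_le_pow_right h.t0 (by norm_num)) h3
      _ = (t ^ 2 * n) ^ 13 := by ring
      _ ≤ N ^ 13 := Nat.pow_le_pow_left hn 13
  have hmN : t * R ≤ N := by
    by_contra hcon
    push Not at hcon
    have h4 : N ^ 16 < (t * R) ^ 16 := Nat.pow_lt_pow_left hcon (by norm_num)
    have h5 : N ^ 13 ≤ N ^ 16 := Nat.pow_le_pow_right hN (by norm_num)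
    omega
  rw [bcodes, mem_biUnion]
  refine ⟨t * R, ?_, ?_⟩
  · rw [mem_filter, mem_range]
    exact ⟨by omega, hm0, hm⟩
  · rw [mem_product, mem_product]
    refine ⟨mem_univ _, ?_, ?_⟩
    · rw [Nat.mem_divisors]
      exact ⟨dvd_mul_right _ _, by omega⟩
    · rw [Fintype.mem_piFinset]
      intro u
      rw [Nat.mem_divisors]
      refine ⟨?_, by omega⟩
      rw [hR]
      exact (Finset.dvd_prod_of_mem _ (mem_univ u)).trans (dvd_mul_left _ _)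

theorem rest_eq {v1 v2 : V} {z z' : V → ℕ} (h : rest13 v1 v2 z = rest13 v1 v2 z')
    (h2 : z v2 = z' v2) : rest v1 z = rest v1 z' := by
  funext u
  have hu := congrFun h u
  unfold rest13 at hu
  unfold rest
  by_cases a : u = v1
  · simp [a]
  · by_cases b : u = comp v1
    · simp [b]
    · by_cases c : u = v2
      · rw [c]
        split_ifs
        · rfl
        · exact h2
      · simpa [a, b, c] using hu

/-- the number of three dimensional cubes with positive first side -/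
theorem card_pos_three2 (N : ℕ) (hN : 1 ≤ N) :
    (Pos 0 N).ncard ≤ ((bcodes N).sigma (admF N)).card := by
  classical
  rw [Set.ncard_eq_toFinset_card _ (finite_pos 0 N)]
  refine card_le_card_of_forall_subsingleton
    (fun c k => ∃ z, Desc c k.1.2.1 z ∧ Nat.Coprime (z k.1.1.1) (z (comp k.1.1.1)) ∧
      rest13 k.1.1.1 k.1.1.2 z = k.1.2.2 ∧ z k.1.1.2 = k.2)
    ?_ ?_
  · intro c hc
    rw [Set.Finite.mem_toFinset] at hc
    obtain ⟨t, z, hd, hcop⟩ := exists_desc hc.1 hc.2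
    obtain ⟨v1, v2, g, g', hv⟩ := exists_pair2 z hd.z0
    have ha := adm hc.1 hd hcop g g'
    refine ⟨⟨((v1, v2), t, rest13 v1 v2 z), z v2⟩, ?_, z, hd, hcop v1, rfl, rfl⟩
    rw [mem_sigma]
    refine ⟨mem_bcodes hN hc.1 hd g g' hv, ?_⟩
    rw [admF, mem_filter, mem_range]
    have hb : z v2 ≤ N := ha.2.2.2.2.2.2.2.1
    exact ⟨Nat.lt_succ_of_le hb, ha⟩
  · rintro ⟨⟨⟨v1, v2⟩, t, ρ⟩, w⟩ -
    rintro c ⟨hc, z, h1, h2, h3, h4⟩ c' ⟨hc', z', h1', h2', h3', h4'⟩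
    rw [Set.Finite.mem_toFinset] at hc
    exact Desc.unique hc.1 h1 h1' v1 h2 h2' (rest_eq (h3.trans h3'.symm) (h4.trans h4'.symm))

theorem card_bcodes_le (N : ℕ) (T : ℝ) (hT : ∀ m : ℕ, 1 ≤ m → m ≤ N → (m.divisors.card : ℝ) ≤ T) :
    ((bcodes N).card : ℝ) ≤ 256 * T ^ 17 * (N : ℝ) ^ (13 / 16 : ℝ) := by
  have hcard : ∀ m ∈ (range (N + 1)).filter (fun m => 1 ≤ m ∧ m ^ 16 ≤ N ^ 13),
      (((univ : Finset (V × V)) ×ˢ (m.divisors ×ˢ
        Fintype.piFinset fun _ : V => m.divisors)).card : ℝ) ≤ 256 * T ^ 17 := by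
    intro m hm
    rw [mem_filter, mem_range] at hm
    have h16 : Fintype.card V = 16 := by simp
    have h4 : (univ : Finset (V × V)).card = Fintype.card V * Fintype.card V :=
      card_univ.trans (Fintype.card_prod V V)
    rw [card_product, card_product, Fintype.card_piFinset, prod_const, h4, h16]
    have h4' : (univ : Finset V).card = 16 := by simp
    rw [h4']
    push_cast
    have h6 := hT m hm.2.1 (by omega)
    have h7 : (m.divisors.card : ℝ) * (m.divisors.card : ℝ) ^ 16 = (m.divisors.card : ℝ) ^ 17 := by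
      ring
    rw [h7]
    have h8 : (m.divisors.card : ℝ) ^ 17 ≤ T ^ 17 := pow_le_pow_left₀ (Nat.cast_nonneg _) h6 17
    have h9 : (0 : ℝ) ≤ 256 := by norm_num
    exact mul_le_mul_of_nonneg_left h8 h9
  have h1 : ((bcodes N).card : ℝ) ≤ ∑ m ∈ (range (N + 1)).filter (fun m => 1 ≤ m ∧ m ^ 16 ≤ N ^ 13),
      (((univ : Finset (V × V)) ×ˢ (m.divisors ×ˢ
        Fintype.piFinset fun _ : V => m.divisors)).card : ℝ) := by
    have := card_biUnion_le (s := (range (N + 1)).filter (fun m => 1 ≤ m ∧ m ^ 16 ≤ N ^ 13))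
      (t := fun m => (univ : Finset (V × V)) ×ˢ (m.divisors ×ˢ
        Fintype.piFinset fun _ : V => m.divisors))
    exact_mod_cast this
  refine h1.trans ((sum_le_card_nsmul _ _ _ hcard).trans ?_)
  rw [nsmul_eq_mul, mul_comm]
  have hT0 : 0 ≤ 256 * T ^ 17 ∨ N = 0 := by
    rcases Nat.eq_zero_or_pos N with h | h
    · exact Or.inr h
    · left
      have := hT 1 le_rfl h
      have h2 : (0 : ℝ) ≤ T := le_trans (by positivity) this
      positivity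
  rcases hT0 with hT0 | hN0
  · refine mul_le_mul_of_nonneg_left ?_ hT0
    have h2 : (range (N + 1)).filter (fun m => 1 ≤ m ∧ m ^ 16 ≤ N ^ 13) ⊆
        Icc 1 ⌊(N : ℝ) ^ (13 / 16 : ℝ)⌋₊ := by
      intro m hm
      rw [mem_filter, mem_range] at hm
      rw [mem_Icc]
      refine ⟨hm.2.1, Nat.le_floor ?_⟩
      have h3 : (m : ℝ) ^ 16 ≤ (N : ℝ) ^ 13 := by exact_mod_cast hm.2.2
      have h4 : (m : ℝ) = ((m : ℝ) ^ (16 : ℕ)) ^ (1 / 16 : ℝ) := by
        rw [← Real.rpow_natCast, ← Real.rpow_mul (by positivity)]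
        norm_num
      have h5 : (N : ℝ) ^ (13 / 16 : ℝ) = ((N : ℝ) ^ (13 : ℕ)) ^ (1 / 16 : ℝ) := by
        rw [← Real.rpow_natCast, ← Real.rpow_mul (by positivity)]
        norm_num
      rw [h4, h5]
      exact Real.rpow_le_rpow (by positivity) h3 (by norm_num)
    have h3 := card_le_card h2
    rw [Nat.card_Icc, Nat.add_sub_cancel] at h3
    calc ((#((range (N + 1)).filter (fun m => 1 ≤ m ∧ m ^ 16 ≤ N ^ 13)) : ℕ) : ℝ)
        ≤ (⌊(N : ℝ) ^ (13 / 16 : ℝ)⌋₊ : ℝ) := by exact_mod_cast h3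
      _ ≤ (N : ℝ) ^ (13 / 16 : ℝ) := Nat.floor_le (by positivity)
  · subst hN0
    have h2 : (range (0 + 1)).filter (fun m => 1 ≤ m ∧ m ^ 16 ≤ 0 ^ 13) = ∅ := by
      ext m
      simp only [mem_filter, mem_range, notMem_empty, iff_false, not_and]
      omega
    rw [h2]
    simp

theorem main (d : ℕ) (hd : 3 ≤ d) (ε : ℝ) (hε : 0 < ε) :
    ∃ C : ℝ, ∀ N : ℕ, 1 ≤ N → (Cubes d N).Finite ∧
      ((Cubes d N).ncard : ℝ) ≤ C * (N : ℝ) ^ (13 / 16 + ε) := by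
  obtain ⟨e, rfl⟩ : ∃ e, d = e + 3 := ⟨d - 3, by omega⟩
  obtain ⟨δ, hδ⟩ : ∃ δ : ℝ, δ = ε / (18 + (e + 3)) := ⟨_, rfl⟩
  have hδ0 : 0 < δ := hδ ▸ by positivity
  obtain ⟨C, hC, hdiv⟩ := Pool.Agent.H5.W.divisor_bound δ hδ0
  obtain ⟨K, hK, hadm⟩ := adm_card δ hδ0
  refine ⟨2 * (256 * C ^ 17 * C ^ (e + 3) * K), fun N hN => ⟨finite_cubes _ N, ?_⟩⟩
  have hN0 : (0 : ℝ) < N := by exact_mod_cast hN
  obtain ⟨T, hT⟩ : ∃ T : ℝ, T = C * (N : ℝ) ^ δ := ⟨_, rfl⟩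
  have hTb : ∀ m : ℕ, 1 ≤ m → m ≤ N → (m.divisors.card : ℝ) ≤ T := fun m h1 h2 => by
    rw [hT]
    refine (hdiv m h1).trans (mul_le_mul_of_nonneg_left ?_ hC.le)
    exact Real.rpow_le_rpow (by positivity) (by exact_mod_cast h2) hδ0.le
  have h1 := card_cubes_le e N
  have h2 := card_pos e N T hTb
  have h3 := card_pos_three2 N hN
  have h4 := card_bcodes_le N T hTb
  have hT0 : 0 ≤ T := by rw [hT]; positivity
  have hK0 : 0 ≤ K * (N : ℝ) ^ δ := by positivity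
  have h5 : (((bcodes N).sigma (admF N)).card : ℝ) ≤ (bcodes N).card * (K * (N : ℝ) ^ δ) := by
    rw [card_sigma]
    push_cast
    refine (sum_le_card_nsmul _ _ (K * (N : ℝ) ^ δ) fun c _ => ?_).trans (by rw [nsmul_eq_mul])
    refine hadm N hN c.1.1 c.1.2 c.2.2 _ fun w hw => ?_
    classical
    rw [admF, mem_filter] at hw
    exact hw.2
  have h1' : ((Cubes (e + 3) N).ncard : ℝ) ≤ 2 * (Pos e N).ncard := by exact_mod_cast h1
  have h3' : ((Pos 0 N).ncard : ℝ) ≤ 256 * T ^ 17 * (N : ℝ) ^ (13 / 16 : ℝ) * (K * (N : ℝ) ^ δ) :=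
    le_trans (by exact_mod_cast h3) (h5.trans (mul_le_mul_of_nonneg_right h4 hK0))
  have hpow : T ^ 17 * T ^ (e + 3) * (N : ℝ) ^ δ = C ^ 17 * C ^ (e + 3) * (N : ℝ) ^ ε := by
    have h6 : ((N : ℝ) ^ δ) ^ (18 + (e + 3)) = (N : ℝ) ^ ε := by
      rw [← Real.rpow_natCast, ← Real.rpow_mul hN0.le]
      congr 1
      rw [hδ]
      push_cast
      field_simp
    calc T ^ 17 * T ^ (e + 3) * (N : ℝ) ^ δ
        = C ^ 17 * C ^ (e + 3) * ((N : ℝ) ^ δ) ^ (18 + (e + 3)) := by rw [hT]; ring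
      _ = _ := by rw [h6]
  calc ((Cubes (e + 3) N).ncard : ℝ) ≤ 2 * (Pos e N).ncard := h1'
    _ ≤ 2 * ((Pos 0 N).ncard * T ^ (e + 3)) := by linarith
    _ ≤ 2 * ((256 * T ^ 17 * (N : ℝ) ^ (13 / 16 : ℝ) * (K * (N : ℝ) ^ δ)) * T ^ (e + 3)) := by
        have := mul_le_mul_of_nonneg_right h3' (pow_nonneg hT0 (e + 3))
        linarith
    _ = 2 * (256 * K * (T ^ 17 * T ^ (e + 3) * (N : ℝ) ^ δ) * (N : ℝ) ^ (13 / 16 : ℝ)) := by ring
    _ = 2 * (256 * C ^ 17 * C ^ (e + 3) * K) * ((N : ℝ) ^ (13 / 16 : ℝ) * (N : ℝ) ^ ε) := by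
        rw [hpow]; ring
    _ = 2 * (256 * C ^ 17 * C ^ (e + 3) * K) * (N : ℝ) ^ (13 / 16 + ε) := by
        rw [← Real.rpow_add hN0]

end H38.HD
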